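import Pool.Agent.P8H93.FM.BetF

/-! # Radial singular symbols, one variable estimates (package BET of project FM, helper93) -/

set_option autoImplicit false

namespace Pool.Agent.P8H93.FM

open MeasureTheory Complex Filter Topology Pool.Agent.P8H98.FM

/-- the weight `x ^ κ` -/
theorem rpow_mu {κ x μ : ℝ} (hκ0 : 0 < κ) (hκ1 : κ < 1) (hx : 0 < x) (hμ : 0 < μ) :
    x ^ κ ≤ μ ^ κ * Ph 1 (x / μ) := by
  have hy : 0 < x / μ := div_pos hx hμ
  have e : x ^ κ = μ ^ κ * (x / μ) ^ κ := by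
    rw [← Real.mul_rpow hμ.le hy.le, mul_div_cancel₀ _ hμ.ne']
  rw [e]
  apply mul_le_mul_of_nonneg_left _ (Real.rpow_pos_of_pos hμ _).le
  apply rpow_le_Ph hy
  rw [abs_of_pos hκ0]
  push_cast
  exact hκ1.le

/-- the second moment bound with the weight -/
theorem second_w {n j K : ℕ} {C κ : ℝ} (hκ0 : 0 < κ) (hκ1 : κ < 1)
    (i0 : Integrable (fun x => Ph (2 * K + 1) (x / mu n j)) (bm n j))
    (i2 : Integrable (fun x => (x / mu n j - 1) ^ 2 * Ph (2 * K + 1) (x / mu n j)) (bm n j))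
    (b0 : lar n (fun x => Ph (2 * K + 1) (x / mu n j)) j ≤ C)
    (b2 : lar n (fun x => (x / mu n j - 1) ^ 2 * Ph (2 * K + 1) (x / mu n j)) j ≤ C / ((j : ℝ) + 1)) :
    Integrable (fun x => ((|x / mu n j - 1| + 1 / √((j : ℝ) + 1)) * Ph K (x / mu n j)) ^ 2 * x ^ κ)
      (bm n j) ∧
    lar n (fun x => ((|x / mu n j - 1| + 1 / √((j : ℝ) + 1)) * Ph K (x / mu n j)) ^ 2 * x ^ κ) j ≤
      64 * C * mu n j ^ κ / ((j : ℝ) + 1) := by
  have hj0 : (0 : ℝ) ≤ j := Nat.cast_nonneg j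
  have hm : (0 : ℝ) < (j : ℝ) + 1 := by linarith
  have hμ := mu_pos n j
  have hμκ : 0 < mu n j ^ κ := Real.rpow_pos_of_pos hμ κ
  have i3 : Integrable (fun x => 32 * mu n j ^ κ * ((x / mu n j - 1) ^ 2 * Ph (2 * K + 1) (x / mu n j) +
      ((j : ℝ) + 1)⁻¹ * Ph (2 * K + 1) (x / mu n j))) (bm n j) :=
    (i2.add (i0.const_mul _)).const_mul _
  have hpt : ∀ x ∈ Set.Ioo (0 : ℝ) 1,
      ((|x / mu n j - 1| + 1 / √((j : ℝ) + 1)) * Ph K (x / mu n j)) ^ 2 * x ^ κ ≤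
      32 * mu n j ^ κ * ((x / mu n j - 1) ^ 2 * Ph (2 * K + 1) (x / mu n j) +
      ((j : ℝ) + 1)⁻¹ * Ph (2 * K + 1) (x / mu n j)) := by
    intro x hx
    have hy : 0 < x / mu n j := div_pos hx.1 hμ
    have h1 := rpow_mu hκ0 hκ1 hx.1 hμ
    have h2 := Ph_mul (a := K) (b := K) hy
    have h3 := Ph_mul (a := 2 * K) (b := 1) hy
    rw [← two_mul] at h2
    have p1 := Ph_pos 1 hy
    have p2 := Ph_pos K hy
    have p3 := Ph_pos (2 * K + 1) hy
    have h4 : (|x / mu n j - 1| + 1 / √((j : ℝ) + 1)) ^ 2 ≤ 2 * ((x / mu n j - 1) ^ 2 + ((j : ℝ) + 1)⁻¹) := by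
      have e1 : (1 / √((j : ℝ) + 1)) ^ 2 = ((j : ℝ) + 1)⁻¹ := by
        rw [div_pow, one_pow, Real.sq_sqrt hm.le, one_div]
      rw [← e1, ← sq_abs (x / mu n j - 1)]
      nlinarith [sq_nonneg (|x / mu n j - 1| - 1 / √((j : ℝ) + 1))]
    have h5 : Ph K (x / mu n j) ^ 2 * Ph 1 (x / mu n j) ≤ 16 * Ph (2 * K + 1) (x / mu n j) := by
      rw [pow_two]
      calc Ph K (x / mu n j) * Ph K (x / mu n j) * Ph 1 (x / mu n j)
          ≤ (4 * Ph (2 * K) (x / mu n j)) * Ph 1 (x / mu n j) := mul_le_mul_of_nonneg_right h2 p1.le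
        _ = 4 * (Ph (2 * K) (x / mu n j) * Ph 1 (x / mu n j)) := by ring
        _ ≤ 4 * (4 * Ph (2 * K + 1) (x / mu n j)) := mul_le_mul_of_nonneg_left h3 (by norm_num)
        _ = _ := by ring
    have hinv : 0 < ((j : ℝ) + 1)⁻¹ := inv_pos.2 hm
    calc ((|x / mu n j - 1| + 1 / √((j : ℝ) + 1)) * Ph K (x / mu n j)) ^ 2 * x ^ κ
        = (|x / mu n j - 1| + 1 / √((j : ℝ) + 1)) ^ 2 * (Ph K (x / mu n j) ^ 2 * x ^ κ) := by ring
      _ ≤ (2 * ((x / mu n j - 1) ^ 2 + ((j : ℝ) + 1)⁻¹)) *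
          (Ph K (x / mu n j) ^ 2 * (mu n j ^ κ * Ph 1 (x / mu n j))) := by
          have := Real.rpow_pos_of_pos hx.1 κ
          gcongr
      _ = 2 * mu n j ^ κ * ((x / mu n j - 1) ^ 2 + ((j : ℝ) + 1)⁻¹) *
          (Ph K (x / mu n j) ^ 2 * Ph 1 (x / mu n j)) := by ring
      _ ≤ 2 * mu n j ^ κ * ((x / mu n j - 1) ^ 2 + ((j : ℝ) + 1)⁻¹) *
          (16 * Ph (2 * K + 1) (x / mu n j)) := by
          apply mul_le_mul_of_nonneg_left h5
          positivity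
      _ = _ := by ring
  have hnn : ∀ x ∈ Set.Ioo (0 : ℝ) 1,
      0 ≤ ((|x / mu n j - 1| + 1 / √((j : ℝ) + 1)) * Ph K (x / mu n j)) ^ 2 * x ^ κ := by
    intro x hx
    have := Real.rpow_pos_of_pos hx.1 κ
    positivity
  constructor
  · refine Integrable.mono' i3 ?_ ?_
    · apply Measurable.aestronglyMeasurable
      unfold Ph
      fun_prop
    · filter_upwards [bm_mem n j] with x hx
      rw [Real.norm_of_nonneg (hnn x hx)]
      exact hpt x hx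
  · refine (lar_mono i3 hnn hpt).trans ?_
    rw [lar_mul, lar_eq, integral_add i2 (i0.const_mul _), ← lar_eq, ← lar_eq, lar_mul]
    calc 32 * mu n j ^ κ * (lar n (fun x => (x / mu n j - 1) ^ 2 * Ph (2 * K + 1) (x / mu n j)) j +
          ((j : ℝ) + 1)⁻¹ * lar n (fun x => Ph (2 * K + 1) (x / mu n j)) j)
        ≤ 32 * mu n j ^ κ * (C / ((j : ℝ) + 1) + ((j : ℝ) + 1)⁻¹ * C) := by
          have : 0 < ((j : ℝ) + 1)⁻¹ := inv_pos.2 hm
          gcongr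
      _ = _ := by
          field_simp
          ring

theorem mu_kappa {n j : ℕ} (hj : j < n) {κ : ℝ} (hκ0 : 0 < κ) (hκ1 : κ < 1) :
    mu n j ^ κ / ((j : ℝ) + 1) ≤ (n : ℝ) ^ (-κ) := by
  have hj0 : (0 : ℝ) ≤ j := Nat.cast_nonneg j
  have hm : (0 : ℝ) < (j : ℝ) + 1 := by linarith
  have hn : (0 : ℝ) < n := by
    have : 0 < n := by omega
    exact_mod_cast this
  unfold mu
  rw [Real.div_rpow hm.le (by positivity), Real.rpow_neg hn.le, ← one_div, div_div,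
    div_le_div_iff₀ (by positivity) (Real.rpow_pos_of_pos hn _), one_mul]
  have h1 : ((j : ℝ) + 1) ^ κ ≤ (j : ℝ) + 1 := by
    calc ((j : ℝ) + 1) ^ κ ≤ ((j : ℝ) + 1) ^ (1 : ℝ) := Real.rpow_le_rpow_of_exponent_le (by linarith) hκ1.le
      _ = _ := Real.rpow_one _
  have h2 : (n : ℝ) ^ κ ≤ ((n : ℝ) + 1) ^ κ := Real.rpow_le_rpow hn.le (by linarith) hκ0.le
  have h3 : 0 < (n : ℝ) ^ κ := Real.rpow_pos_of_pos hn _
  calc ((j : ℝ) + 1) ^ κ * (n : ℝ) ^ κ ≤ ((j : ℝ) + 1) * ((n : ℝ) + 1) ^ κ := by gcongr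
    _ = _ := by ring

/-- lower bound for the symbol at the mean -/
theorem sc_mu_lower {n j : ℕ} (hj : j < n) (hn : 2 ≤ n) {δ : ℝ} (hδ : 0 < δ) (hδ1 : δ ≤ 1) (q : ℂ) :
    (n : ℝ) ^ (-(2 * |q.re| + 1)) ≤ ‖sc δ q (mu n j)‖ / 2 := by
  have hj0 : (0 : ℝ) ≤ j := Nat.cast_nonneg j
  have hμ := mu_pos n j
  have hμ1 := mu_le hj
  have hn2 : (2 : ℝ) ≤ n := by exact_mod_cast hn
  have hn0 : (0 : ℝ) < n := by linarith
  rw [sc_norm hδ hμ]
  have h1 : mu n j ≤ min (mu n j / δ) 1 := by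
    apply le_min _ hμ1.le
    rw [le_div_iff₀ hδ]
    nlinarith
  have hmin : 0 < min (mu n j / δ) 1 := lt_of_lt_of_le hμ h1
  have h2 : mu n j ^ |q.re| ≤ (min (mu n j / δ) 1) ^ q.re := by
    rcases le_total 0 q.re with h | h
    · rw [abs_of_nonneg h]
      exact Real.rpow_le_rpow hμ.le h1 h
    · have h3 : 1 ≤ (min (mu n j / δ) 1) ^ q.re :=
        Real.one_le_rpow_of_pos_of_le_one_of_nonpos hmin (min_le_right _ _) h
      exact (Real.rpow_le_one hμ.le hμ1.le (abs_nonneg _)).trans h3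
  have h3 : (n : ℝ) ^ (-(2 : ℝ)) ≤ mu n j := by
    unfold mu
    rw [Real.rpow_neg hn0.le, show (2 : ℝ) = ((2 : ℕ) : ℝ) by norm_num, Real.rpow_natCast, ← one_div,
      div_le_div_iff₀ (by positivity) (by positivity)]
    nlinarith
  have h4 : (n : ℝ) ^ (-(2 : ℝ) * |q.re|) ≤ mu n j ^ |q.re| := by
    rw [Real.rpow_mul hn0.le]
    exact Real.rpow_le_rpow (Real.rpow_pos_of_pos hn0 _).le h3 (abs_nonneg _)
  have h5 : (n : ℝ) ^ (-(2 * |q.re| + 1)) = (n : ℝ) ^ (-(2 : ℝ) * |q.re|) / n := by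
    rw [← Real.rpow_sub_one hn0.ne']
    congr 1
    ring
  rw [h5]
  have h6 : 0 < (n : ℝ) ^ (-(2 : ℝ) * |q.re|) := Real.rpow_pos_of_pos hn0 _
  calc (n : ℝ) ^ (-(2 : ℝ) * |q.re|) / n ≤ (n : ℝ) ^ (-(2 : ℝ) * |q.re|) / 2 := by gcongr
    _ ≤ _ := by linarith

/-- one `j` -/
theorem small_j (δ : ℝ) (hδ : 0 < δ) (q : ℂ) (κ : ℝ) (hq : -1 < q.re)
    (hκ : 0 < κ) (h2 : -1 < 2 * q.re + κ) (j : ℕ) : ∃ C : ℝ, 0 < C ∧ ∀ᶠ n : ℕ in atTop,
    (n : ℝ) ^ (-C) ≤ ‖lam n (sc δ q) j‖ ∧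
    lar n (fun x => ‖sc δ q x / lam n (sc δ q) j - 1‖ ^ 2 * x ^ κ) j ≤ C * (n : ℝ) ^ (-κ) := by
  have hj0 : (0 : ℝ) ≤ j := Nat.cast_nonneg j
  obtain ⟨c, hc, hlow⟩ := small_lower δ hδ q hq j
  obtain ⟨C1, hC1, hup1⟩ := small_upper δ hδ q κ hq hκ h2 j
  obtain ⟨C2, hC2, hup2⟩ := mom_upper j κ (by linarith)
  refine ⟨2 * C1 + 2 * C2 + |q.re| + 1, by positivity, ?_⟩
  obtain ⟨N, hN⟩ := exists_nat_ge (1 / c)
  filter_upwards [hlow, hup1, hup2, eventually_ge_atTop N, eventually_gt_atTop 0] with n h1 h3 h4 h5 h6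
  have hn1 : (1 : ℝ) ≤ n := by exact_mod_cast h6
  have hn0 : (0 : ℝ) < n := by linarith
  have hnk : 0 < (n : ℝ) ^ (-κ) := Real.rpow_pos_of_pos hn0 _
  constructor
  · refine le_trans ?_ h1
    have h7 : (n : ℝ) ^ (-(2 * C1 + 2 * C2 + |q.re| + 1)) ≤ (n : ℝ) ^ (-q.re) / n := by
      rw [← Real.rpow_sub_one hn0.ne']
      apply Real.rpow_le_rpow_of_exponent_le hn1
      linarith [le_abs_self q.re]
    refine h7.trans ?_
    rw [div_eq_mul_inv, mul_comm]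
    apply mul_le_mul_of_nonneg_right _ (Real.rpow_pos_of_pos hn0 _).le
    have h8 : 1 / c ≤ n := hN.trans (by exact_mod_cast h5)
    rw [inv_le_comm₀ hn0 hc]
    rwa [one_div] at h8
  · obtain ⟨l, hl⟩ : ∃ l, l = lam n (sc δ q) j := ⟨_, rfl⟩
    rw [← hl] at h3 ⊢
    have i2 : Integrable (fun x : ℝ => x ^ κ) (bm n j) := rpow_integrable (by linarith)
    have i3 : Integrable (fun x : ℝ => 2 * (‖sc δ q x / l‖ ^ 2 * x ^ κ) + 2 * x ^ κ) (bm n j) :=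
      (h3.1.const_mul 2).add (i2.const_mul 2)
    have h7 : lar n (fun x => ‖sc δ q x / l - 1‖ ^ 2 * x ^ κ) j ≤
        lar n (fun x : ℝ => 2 * (‖sc δ q x / l‖ ^ 2 * x ^ κ) + 2 * x ^ κ) j := by
      apply lar_mono i3
      · intro x hx
        have := Real.rpow_pos_of_pos hx.1 κ
        positivity
      · intro x hx
        have hxk := Real.rpow_pos_of_pos hx.1 κ
        have h8 : ‖sc δ q x / l - 1‖ ≤ ‖sc δ q x / l‖ + 1 := by
          refine (norm_sub_le _ _).trans ?_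
          rw [norm_one]
        have h9 : ‖sc δ q x / l - 1‖ ^ 2 ≤ 2 * ‖sc δ q x / l‖ ^ 2 + 2 := by
          have h10 := pow_le_pow_left₀ (norm_nonneg _) h8 2
          nlinarith [sq_nonneg (‖sc δ q x / l‖ - 1)]
        calc ‖sc δ q x / l - 1‖ ^ 2 * x ^ κ ≤ (2 * ‖sc δ q x / l‖ ^ 2 + 2) * x ^ κ :=
              mul_le_mul_of_nonneg_right h9 hxk.le
          _ = _ := by ring
    refine h7.trans ?_
    rw [lar_eq, integral_add (h3.1.const_mul 2) (i2.const_mul 2), ← lar_eq, ← lar_eq, lar_mul, lar_mul]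
    have := h3.2
    nlinarith [abs_nonneg q.re]

/-- package BET -/
theorem bet : S_BET := by
  intro δ q κ hδ hδ1 hq hκ0 hκ1 h2
  obtain ⟨K, M, C, hC, hM1, hbig⟩ := big_j q hq
  obtain ⟨C', hC', hcore⟩ := core (2 * K + 1)
  choose D hD hsmall using small_j δ hδ q κ hq hκ0 h2
  obtain ⟨M', hM'⟩ : ∃ M', M' = M + 2 * (2 * K + 1) := ⟨_, rfl⟩
  obtain ⟨E, hE⟩ : ∃ E : ℝ, E = ∑ j ∈ Finset.range M', D j + (2 * |q.re| + 1) + 64 * C ^ 2 * C' := ⟨_, rfl⟩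
  have hDsum : ∀ j < M', D j ≤ E := by
    intro j hj
    have h1 := Finset.single_le_sum (f := D) (fun i _ => (hD i).le) (Finset.mem_range.2 hj)
    have h3 : 0 ≤ 64 * C ^ 2 * C' := by positivity
    rw [hE]
    linarith [abs_nonneg q.re]
  have hsum0 : 0 ≤ ∑ j ∈ Finset.range M', D j := Finset.sum_nonneg fun i _ => (hD i).le
  have hE0 : 0 < E := by
    have h3 : 0 ≤ 64 * C ^ 2 * C' := by positivity
    rw [hE]
    linarith [abs_nonneg q.re]
  refine ⟨E, hE0, ?_⟩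
  have hev : ∀ᶠ n : ℕ in atTop, ∀ j ∈ Finset.range M', (n : ℝ) ^ (-D j) ≤ ‖lam n (sc δ q) j‖ ∧
      lar n (fun x => ‖sc δ q x / lam n (sc δ q) j - 1‖ ^ 2 * x ^ κ) j ≤ D j * (n : ℝ) ^ (-κ) := by
    rw [Filter.eventually_all_finset]
    intro j _
    exact hsmall j
  filter_upwards [hev, eventually_ge_atTop 2] with n h3 h4 j hj
  have hn2 : (2 : ℝ) ≤ n := by exact_mod_cast h4
  have hn0 : (0 : ℝ) < n := by linarith
  have hn1 : (1 : ℝ) ≤ n := by linarith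
  have hnk : 0 < (n : ℝ) ^ (-κ) := Real.rpow_pos_of_pos hn0 _
  have hj0 : (0 : ℝ) ≤ j := Nat.cast_nonneg j
  rcases lt_or_ge j M' with hjM | hjM
  · obtain ⟨h5, h6⟩ := h3 j (Finset.mem_range.2 hjM)
    have h7 := hDsum j hjM
    constructor
    · refine le_trans ?_ h5
      apply Real.rpow_le_rpow_of_exponent_le hn1
      linarith
    · exact h6.trans (mul_le_mul_of_nonneg_right h7 hnk.le)
  · obtain ⟨h5, h6, h7⟩ := hbig δ hδ n j hj (by omega)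
    obtain ⟨i0, i2, -, b0, b2, -⟩ := hcore n j hj (by omega)
    obtain ⟨i3, b3⟩ := second_w hκ0 hκ1 i0 i2 b0 b2
    constructor
    · refine le_trans ?_ ((sc_mu_lower hj h4 hδ hδ1 q).trans h6)
      apply Real.rpow_le_rpow_of_exponent_le hn1
      have h8 : 0 ≤ 64 * C ^ 2 * C' := by positivity
      linarith
    · have h8 : lar n (fun x => ‖sc δ q x / lam n (sc δ q) j - 1‖ ^ 2 * x ^ κ) j ≤
          lar n (fun x => C ^ 2 * (((|x / mu n j - 1| + 1 / √((j : ℝ) + 1)) *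
            Ph K (x / mu n j)) ^ 2 * x ^ κ)) j := by
        apply lar_mono (i3.const_mul _)
        · intro x hx
          have := Real.rpow_pos_of_pos hx.1 κ
          positivity
        · intro x hx
          have hxk := Real.rpow_pos_of_pos hx.1 κ
          rw [← mul_assoc, ← mul_pow]
          apply mul_le_mul_of_nonneg_right _ hxk.le
          exact pow_le_pow_left₀ (norm_nonneg _) (h7 x hx) 2
      refine h8.trans ?_
      rw [lar_mul]
      have h9 := mu_kappa hj hκ0 hκ1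
      calc C ^ 2 * lar n (fun x => ((|x / mu n j - 1| + 1 / √((j : ℝ) + 1)) *
            Ph K (x / mu n j)) ^ 2 * x ^ κ) j
          ≤ C ^ 2 * (64 * C' * mu n j ^ κ / ((j : ℝ) + 1)) := mul_le_mul_of_nonneg_left b3 (by positivity)
        _ = 64 * C ^ 2 * C' * (mu n j ^ κ / ((j : ℝ) + 1)) := by ring
        _ ≤ 64 * C ^ 2 * C' * (n : ℝ) ^ (-κ) := mul_le_mul_of_nonneg_left h9 (by positivity)
        _ ≤ E * (n : ℝ) ^ (-κ) := by
            apply mul_le_mul_of_nonneg_right _ hnk.le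
            rw [hE]
            linarith [abs_nonneg q.re]

end Pool.Agent.P8H93.FM
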