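import Pool.Agent.P8H93.FM.Bet

/-! # Additivity in the exponent of the singular symbols (package BET2 of project FM, helper93) -/

set_option autoImplicit false

namespace Pool.Agent.P8H93.FM

open MeasureTheory Complex Filter Topology Pool.Agent.P8H98.FM

theorem sc_add {δ x : ℝ} (hδ : 0 < δ) (hx : 0 < x) (q q' : ℂ) :
    sc δ (q + q') x = sc δ q x * sc δ q' x := by
  unfold sc
  apply cpow_add
  exact_mod_cast (lt_min (div_pos hx hδ) zero_lt_one).ne'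

/-- the combination -/
noncomputable def Ee (δ : ℝ) (q q' : ℂ) (n j : ℕ) (x : ℝ) : ℂ :=
  sc δ (q + q') x / lam n (sc δ (q + q')) j - sc δ q x / lam n (sc δ q) j -
      sc δ q' x / lam n (sc δ q') j + 1

theorem int_add4 {α : Type} [MeasurableSpace α] {μ : Measure α} {f g h k : α → ℝ}
    (hf : Integrable f μ) (hg : Integrable g μ) (hh : Integrable h μ) (hk : Integrable k μ) :
    Integrable (fun x => f x + g x + h x + k x) μ ∧
    ∫ x, (f x + g x + h x + k x) ∂μ = ∫ x, f x ∂μ + ∫ x, g x ∂μ + ∫ x, h x ∂μ + ∫ x, k x ∂μ := by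
  have i1 : Integrable (fun x => f x + g x) μ := hf.add hg
  have i2 : Integrable (fun x => f x + g x + h x) μ := i1.add hh
  refine ⟨i2.add hk, ?_⟩
  rw [integral_add i2 hk, integral_add i1 hh, integral_add hf hg]

theorem int_sub3 {α : Type} [MeasurableSpace α] {μ : Measure α} {f g h : α → ℂ} [IsProbabilityMeasure μ]
    (hf : Integrable f μ) (hg : Integrable g μ) (hh : Integrable h μ) :
    ∫ x, (f x - g x - h x + 1) ∂μ = ∫ x, f x ∂μ - ∫ x, g x ∂μ - ∫ x, h x ∂μ + 1 := by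
  have i1 : Integrable (fun x => f x - g x) μ := hf.sub hg
  have i2 : Integrable (fun x => f x - g x - h x) μ := i1.sub hh
  rw [integral_add i2 (integrable_const 1), integral_sub i1 hh, integral_sub hf hg]
  simp

/-- one `j` -/
theorem small_j2 (δ : ℝ) (hδ : 0 < δ) (q q' : ℂ) (κ : ℝ) (hq : -1 < q.re) (hq' : -1 < q'.re)
    (hqq : -1 < (q + q').re) (hκ : 0 < κ) (h2 : -1 < 2 * q.re + κ) (h2' : -1 < 2 * q'.re + κ)
    (h2q : -1 < 2 * (q + q').re + κ) (j : ℕ) : ∃ C : ℝ, 0 < C ∧ ∀ᶠ n : ℕ in atTop,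
    lar n (fun x => ‖Ee δ q q' n j x‖ ^ 2 * x ^ κ) j ≤ C * (n : ℝ) ^ (-κ) := by
  have hj0 : (0 : ℝ) ≤ j := Nat.cast_nonneg j
  obtain ⟨C1, hC1, hup1⟩ := small_upper δ hδ q κ hq hκ h2 j
  obtain ⟨C2, hC2, hup2⟩ := small_upper δ hδ q' κ hq' hκ h2' j
  obtain ⟨C3, hC3, hup3⟩ := small_upper δ hδ (q + q') κ hqq hκ h2q j
  obtain ⟨C4, hC4, hup4⟩ := mom_upper j κ (by linarith)
  refine ⟨4 * (C1 + C2 + C3 + C4), by positivity, ?_⟩
  filter_upwards [hup1, hup2, hup3, hup4] with n h1 h3 h4 h5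
  unfold Ee
  generalize lam n (sc δ q) j = l at *
  generalize lam n (sc δ q') j = l' at *
  generalize lam n (sc δ (q + q')) j = l'' at *
  have i2 : Integrable (fun x : ℝ => x ^ κ) (bm n j) := rpow_integrable (by linarith)
  obtain ⟨ia0, ea⟩ := int_add4 h4.1 h1.1 h3.1 i2
  have ia := ia0.const_mul 4
  have h7 : lar n (fun x => ‖sc δ (q + q') x / l'' - sc δ q x / l - sc δ q' x / l' + 1‖ ^ 2 * x ^ κ) j ≤
      lar n (fun x : ℝ => 4 * (‖sc δ (q + q') x / l''‖ ^ 2 * x ^ κ + ‖sc δ q x / l‖ ^ 2 * x ^ κ +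
        ‖sc δ q' x / l'‖ ^ 2 * x ^ κ + x ^ κ)) j := by
    apply lar_mono ia
    · intro x hx
      have := Real.rpow_pos_of_pos hx.1 κ
      positivity
    · intro x hx
      have hxk := Real.rpow_pos_of_pos hx.1 κ
      generalize sc δ (q + q') x / l'' = a
      generalize sc δ q x / l = b
      generalize sc δ q' x / l' = c
      have h8 : ‖a - b - c + 1‖ ≤ ‖a‖ + ‖b‖ + ‖c‖ + 1 := by
        calc ‖a - b - c + 1‖ ≤ ‖a - b - c‖ + ‖(1 : ℂ)‖ := norm_add_le _ _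
          _ ≤ (‖a - b‖ + ‖c‖) + ‖(1 : ℂ)‖ := by gcongr; exact norm_sub_le _ _
          _ ≤ (‖a‖ + ‖b‖ + ‖c‖) + ‖(1 : ℂ)‖ := by gcongr; exact norm_sub_le _ _
          _ = _ := by rw [norm_one]
      have h9 : ‖a - b - c + 1‖ ^ 2 ≤ 4 * (‖a‖ ^ 2 + ‖b‖ ^ 2 + ‖c‖ ^ 2 + 1) := by
        have h10 := pow_le_pow_left₀ (norm_nonneg _) h8 2
        nlinarith [sq_nonneg (‖a‖ - ‖b‖), sq_nonneg (‖a‖ - ‖c‖), sq_nonneg (‖b‖ - ‖c‖),
          sq_nonneg (‖a‖ - 1), sq_nonneg (‖b‖ - 1), sq_nonneg (‖c‖ - 1)]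
      calc ‖a - b - c + 1‖ ^ 2 * x ^ κ ≤ (4 * (‖a‖ ^ 2 + ‖b‖ ^ 2 + ‖c‖ ^ 2 + 1)) * x ^ κ :=
            mul_le_mul_of_nonneg_right h9 hxk.le
        _ = _ := by ring
  refine h7.trans ?_
  rw [lar_mul, lar_eq, ea, ← lar_eq, ← lar_eq, ← lar_eq, ← lar_eq]
  have e1 := h1.2
  have e3 := h3.2
  have e4 := h4.2
  nlinarith

/-- unified pointwise bounds -/
theorem big_u (q q' : ℂ) (hq : -1 < q.re) (hq' : -1 < q'.re) (hqq : -1 < (q + q').re) :
    ∃ (K M : ℕ) (C : ℝ), 0 < C ∧ 1 ≤ M ∧ ∀ δ : ℝ, 0 < δ → ∀ n j : ℕ, j < n → M ≤ j + 1 →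
    lam n (sc δ q) j ≠ 0 ∧ lam n (sc δ q') j ≠ 0 ∧ lam n (sc δ (q + q')) j ≠ 0 ∧
    ∀ x ∈ Set.Ioo (0 : ℝ) 1,
      ‖sc δ q x / lam n (sc δ q) j - 1‖ ≤
        C * ((|x / mu n j - 1| + 1 / √((j : ℝ) + 1)) * Ph K (x / mu n j)) ∧
      ‖sc δ q' x / lam n (sc δ q') j - 1‖ ≤
        C * ((|x / mu n j - 1| + 1 / √((j : ℝ) + 1)) * Ph K (x / mu n j)) ∧
      ‖sc δ (q + q') x / lam n (sc δ (q + q')) j - 1‖ ≤
        C * ((|x / mu n j - 1| + 1 / √((j : ℝ) + 1)) * Ph K (x / mu n j)) := by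
  obtain ⟨K1, M1, C1, hC1, hM1, h1⟩ := big_j q hq
  obtain ⟨K2, M2, C2, hC2, hM2, h2⟩ := big_j q' hq'
  obtain ⟨K3, M3, C3, hC3, hM3, h3⟩ := big_j (q + q') hqq
  refine ⟨K1 + K2 + K3, M1 + M2 + M3, 2 * (C1 + C2 + C3), by positivity, by omega, ?_⟩
  intro δ hδ n j hj hM
  obtain ⟨a1, -, b1⟩ := h1 δ hδ n j hj (by omega)
  obtain ⟨a2, -, b2⟩ := h2 δ hδ n j hj (by omega)
  obtain ⟨a3, -, b3⟩ := h3 δ hδ n j hj (by omega)
  refine ⟨a1, a2, a3, ?_⟩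
  intro x hx
  have hj0 : (0 : ℝ) ≤ j := Nat.cast_nonneg j
  have hμ := mu_pos n j
  have hy : 0 < x / mu n j := div_pos hx.1 hμ
  have key : ∀ (K' : ℕ) (C' : ℝ), 0 < C' → C' ≤ C1 + C2 + C3 → K' ≤ K1 + K2 + K3 →
      C' * ((|x / mu n j - 1| + 1 / √((j : ℝ) + 1)) * Ph K' (x / mu n j)) ≤
      2 * (C1 + C2 + C3) * ((|x / mu n j - 1| + 1 / √((j : ℝ) + 1)) * Ph (K1 + K2 + K3) (x / mu n j)) := by
    intro K' C' hC' hCC hKK
    have e := Ph_mono hKK hy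
    have hP := Ph_pos K' hy
    calc C' * ((|x / mu n j - 1| + 1 / √((j : ℝ) + 1)) * Ph K' (x / mu n j))
        ≤ (C1 + C2 + C3) * ((|x / mu n j - 1| + 1 / √((j : ℝ) + 1)) *
          (2 * Ph (K1 + K2 + K3) (x / mu n j))) := by gcongr
      _ = _ := by ring
  exact ⟨(b1 x hx).trans (key K1 C1 hC1 (by linarith) (by omega)),
    (b2 x hx).trans (key K2 C2 hC2 (by linarith) (by omega)),
    (b3 x hx).trans (key K3 C3 hC3 (by linarith) (by omega))⟩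

/-- the square of the weight -/
theorem W_sq {m y : ℝ} (hm : 0 < m) (hy : 0 < y) (K : ℕ) :
    ((|y - 1| + 1 / √m) * Ph K y) ^ 2 ≤ 8 * (((y - 1) ^ 2 + m⁻¹) * Ph (2 * K) y) := by
  have e1 : (1 / √m) ^ 2 = m⁻¹ := by
    rw [div_pow, one_pow, Real.sq_sqrt hm.le, one_div]
  have h4 : (|y - 1| + 1 / √m) ^ 2 ≤ 2 * ((y - 1) ^ 2 + m⁻¹) := by
    rw [← e1, ← sq_abs (y - 1)]
    nlinarith [sq_nonneg (|y - 1| - 1 / √m)]
  have h2 := Ph_mul (a := K) (b := K) hy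
  rw [← two_mul] at h2
  have p := Ph_pos K hy
  rw [mul_pow]
  calc (|y - 1| + 1 / √m) ^ 2 * Ph K y ^ 2 ≤ (2 * ((y - 1) ^ 2 + m⁻¹)) * (4 * Ph (2 * K) y) := by
        apply mul_le_mul h4 (by rw [pow_two]; exact h2) (by positivity) (by positivity)
    _ = _ := by ring

theorem W_one {m y : ℝ} (hm : 1 ≤ m) (hy : 0 < y) (K : ℕ) :
    (|y - 1| + 1 / √m) * Ph K y ≤ 12 * Ph (K + 1) y := by
  have h1 : 1 / √m ≤ 1 := by
    rw [div_le_one (Real.sqrt_pos.2 (by linarith))]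
    exact Real.one_le_sqrt.2 hm
  have h2 : |y - 1| ≤ y + 1 := by
    rw [abs_le]
    constructor <;> linarith
  have h3 := rpow_le_Ph (K := 1) (p := 1) hy (by norm_num)
  rw [Real.rpow_one] at h3
  have h4 := one_le_Ph (K := 1) hy
  have h5 := Ph_mul (a := 1) (b := K) hy
  rw [add_comm 1 K] at h5
  have p := Ph_pos K hy
  calc (|y - 1| + 1 / √m) * Ph K y ≤ (3 * Ph 1 y) * Ph K y := by
        apply mul_le_mul_of_nonneg_right _ p.le
        linarith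
    _ = 3 * (Ph 1 y * Ph K y) := by ring
    _ ≤ _ := by linarith

/-- the bound for large `j` -/
theorem big_j2 (q q' : ℂ) (κ : ℝ) (hq : -1 < q.re) (hq' : -1 < q'.re)
    (hqq : -1 < (q + q').re) (hκ0 : 0 < κ) (hκ1 : κ < 1) :
    ∃ (M : ℕ) (C : ℝ), 0 < C ∧ ∀ δ : ℝ, 0 < δ → ∀ n j : ℕ, j < n → M ≤ j + 1 →
    lar n (fun x => ‖Ee δ q q' n j x‖ ^ 2 * x ^ κ) j ≤ C * (mu n j ^ κ / ((j : ℝ) + 1) ^ 2) := by
  obtain ⟨K, M, C, hC, hM1, hbig⟩ := big_u q q' hq hq' hqq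
  obtain ⟨C1, hC1, hcore1⟩ := core (2 * K)
  obtain ⟨C2, hC2, hcore2⟩ := core (4 * K + 3)
  obtain ⟨B, hB⟩ : ∃ B : ℝ, B = 16 * C ^ 2 * C1 := ⟨_, rfl⟩
  have hB0 : 0 < B := by rw [hB]; positivity
  obtain ⟨D, hD⟩ : ∃ D : ℝ, D = 16 * C ^ 2 + 2 * (1 + 12 * C) * B := ⟨_, rfl⟩
  have hD0 : 0 < D := by rw [hD]; positivity
  refine ⟨M + 2 * (4 * K + 3), 64 * D ^ 2 * C2, by positivity, ?_⟩
  intro δ hδ n j hj hMj
  have hj0 : (0 : ℝ) ≤ j := Nat.cast_nonneg j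
  obtain ⟨hl, hl', hl'', hu⟩ := hbig δ hδ n j hj (by omega)
  obtain ⟨i0, i2, -, b0, b2, -⟩ := hcore1 n j hj (by omega)
  obtain ⟨k0, -, k4, c0, -, c4⟩ := hcore2 n j hj (by omega)
  have hμ := mu_pos n j
  have hμκ : 0 < mu n j ^ κ := Real.rpow_pos_of_pos hμ κ
  have hprob := bm_prob hj
  obtain ⟨m, hm⟩ : ∃ m : ℝ, m = (j : ℝ) + 1 := ⟨_, rfl⟩
  rw [← hm] at hu b2 c4 ⊢
  have hm1 : 1 ≤ m := by rw [hm]; linarith
  have hm0 : 0 < m := by linarith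
  have hminv : 0 < m⁻¹ := inv_pos.2 hm0
  have is := sc_int (n := n) (j := j) hδ hq
  have is' := sc_int (n := n) (j := j) hδ hq'
  have is'' := sc_int (n := n) (j := j) hδ hqq
  have el : lam n (sc δ q) j = ∫ x, sc δ q x ∂(bm n j) := lam_eq _ _ _
  have el' : lam n (sc δ q') j = ∫ x, sc δ q' x ∂(bm n j) := lam_eq _ _ _
  have el'' : lam n (sc δ (q + q')) j = ∫ x, sc δ (q + q') x ∂(bm n j) := lam_eq _ _ _
  unfold Ee
  generalize lam n (sc δ q) j = l at *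
  generalize lam n (sc δ q') j = l' at *
  generalize lam n (sc δ (q + q')) j = l'' at *
  -- the average of the product
  obtain ⟨I, hI⟩ : ∃ I : ℂ, I = ∫ x, (sc δ q x / l - 1) * (sc δ q' x / l' - 1) ∂(bm n j) := ⟨_, rfl⟩
  have iV : Integrable (fun x => 8 * C ^ 2 * ((x / mu n j - 1) ^ 2 * Ph (2 * K) (x / mu n j) +
      m⁻¹ * Ph (2 * K) (x / mu n j))) (bm n j) := (i2.add (i0.const_mul _)).const_mul _
  have hprod : ∀ x ∈ Set.Ioo (0 : ℝ) 1, ‖(sc δ q x / l - 1) * (sc δ q' x / l' - 1)‖ ≤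
      8 * C ^ 2 * ((x / mu n j - 1) ^ 2 * Ph (2 * K) (x / mu n j) +
      m⁻¹ * Ph (2 * K) (x / mu n j)) := by
    intro x hx
    obtain ⟨u1, u2, -⟩ := hu x hx
    have hy : 0 < x / mu n j := div_pos hx.1 hμ
    have hW := W_sq hm0 hy K
    have hP := Ph_pos K hy
    rw [norm_mul]
    calc ‖sc δ q x / l - 1‖ * ‖sc δ q' x / l' - 1‖
        ≤ (C * ((|x / mu n j - 1| + 1 / √m) * Ph K (x / mu n j))) *
          (C * ((|x / mu n j - 1| + 1 / √m) * Ph K (x / mu n j))) := by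
          apply mul_le_mul u1 u2 (norm_nonneg _)
          positivity
      _ = C ^ 2 * ((|x / mu n j - 1| + 1 / √m) * Ph K (x / mu n j)) ^ 2 := by ring
      _ ≤ C ^ 2 * (8 * (((x / mu n j - 1) ^ 2 + m⁻¹) * Ph (2 * K) (x / mu n j))) :=
          mul_le_mul_of_nonneg_left hW (by positivity)
      _ = _ := by ring
  have hIb : ‖I‖ ≤ B * m⁻¹ := by
    rw [hI]
    refine (norm_integral_le_integral_norm _).trans ?_
    rw [← lar_eq]
    refine (lar_mono iV (fun x _ => norm_nonneg _) hprod).trans ?_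
    rw [lar_mul, lar_eq, integral_add i2 (i0.const_mul _), ← lar_eq, ← lar_eq, lar_mul, hB]
    calc 8 * C ^ 2 * (lar n (fun x => (x / mu n j - 1) ^ 2 * Ph (2 * K) (x / mu n j)) j +
          m⁻¹ * lar n (fun x => Ph (2 * K) (x / mu n j)) j)
        ≤ 8 * C ^ 2 * (C1 / m + m⁻¹ * C1) := by gcongr
      _ = _ := by
          rw [div_eq_mul_inv]
          ring
  -- the ratio
  have hratio : l'' / (l * l') = 1 + I := by
    have e1 : ∀ᵐ x ∂(bm n j), (sc δ q x / l - 1) * (sc δ q' x / l' - 1) =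
        ((sc δ (q + q') x / (l * l') - sc δ q x / l) - sc δ q' x / l') + 1 := by
      filter_upwards [bm_mem n j] with x hx
      rw [sc_add hδ hx.1]
      field_simp
      ring
    have e2 : I = l'' / (l * l') - 1 - 1 + 1 := by
      rw [hI, integral_congr_ae e1, int_sub3 (is''.div_const _) (is.div_const _) (is'.div_const _),
        integral_div, integral_div, integral_div, ← el, ← el', ← el'', div_self hl, div_self hl']
    rw [e2]
    ring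
  have hE : ∀ x ∈ Set.Ioo (0 : ℝ) 1,
      ‖sc δ (q + q') x / l'' - sc δ q x / l - sc δ q' x / l' + 1‖ ≤
      D * (((x / mu n j - 1) ^ 2 + m⁻¹) * Ph (2 * K + 1) (x / mu n j)) := by
    intro x hx
    obtain ⟨u1, u2, u3⟩ := hu x hx
    have hy : 0 < x / mu n j := div_pos hx.1 hμ
    have hP := Ph_pos K hy
    have e : sc δ (q + q') x / l'' - sc δ q x / l - sc δ q' x / l' + 1 =
        (sc δ q x / l - 1) * (sc δ q' x / l' - 1) - (1 + (sc δ (q + q') x / l'' - 1)) * I := by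
      have e3 : I = l'' / (l * l') - 1 := by rw [hratio]; ring
      rw [e3, sc_add hδ hx.1]
      field_simp
      ring
    rw [e]
    have h1 : ‖1 + (sc δ (q + q') x / l'' - 1)‖ ≤ (1 + 12 * C) * Ph (K + 1) (x / mu n j) := by
      refine (norm_add_le _ _).trans ?_
      rw [norm_one]
      have h3 := one_le_Ph (K := K + 1) hy
      have h4 := W_one hm1 hy K
      have h5 := mul_le_mul_of_nonneg_left h4 hC.le
      linarith
    have h2 := Ph_mono (show K + 1 ≤ 2 * K + 1 by omega) hy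
    have h2' := Ph_mono (show 2 * K ≤ 2 * K + 1 by omega) hy
    have hQ := Ph_pos (2 * K + 1) hy
    have hQ1 := Ph_pos (K + 1) hy
    calc ‖(sc δ q x / l - 1) * (sc δ q' x / l' - 1) - (1 + (sc δ (q + q') x / l'' - 1)) * I‖
        ≤ ‖(sc δ q x / l - 1) * (sc δ q' x / l' - 1)‖ + ‖(1 + (sc δ (q + q') x / l'' - 1)) * I‖ :=
          norm_sub_le _ _
      _ ≤ 8 * C ^ 2 * ((x / mu n j - 1) ^ 2 * Ph (2 * K) (x / mu n j) +
            m⁻¹ * Ph (2 * K) (x / mu n j)) +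
          ((1 + 12 * C) * Ph (K + 1) (x / mu n j)) * (B * m⁻¹) := by
          rw [norm_mul (1 + _)]
          apply add_le_add (hprod x hx)
          exact mul_le_mul h1 hIb (norm_nonneg _) (by positivity)
      _ = 8 * C ^ 2 * (((x / mu n j - 1) ^ 2 + m⁻¹) * Ph (2 * K) (x / mu n j)) +
          (1 + 12 * C) * B * (m⁻¹ * Ph (K + 1) (x / mu n j)) := by ring
      _ ≤ 8 * C ^ 2 * (((x / mu n j - 1) ^ 2 + m⁻¹) * (2 * Ph (2 * K + 1) (x / mu n j))) +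
          (1 + 12 * C) * B * (((x / mu n j - 1) ^ 2 + m⁻¹) * (2 * Ph (2 * K + 1) (x / mu n j))) := by
          have h6 : m⁻¹ ≤ (x / mu n j - 1) ^ 2 + m⁻¹ := by
            have := sq_nonneg (x / mu n j - 1)
            linarith
          gcongr
      _ = _ := by
          rw [hD]
          ring
  -- the square
  have hE2 : ∀ x ∈ Set.Ioo (0 : ℝ) 1,
      ‖sc δ (q + q') x / l'' - sc δ q x / l - sc δ q' x / l' + 1‖ ^ 2 * x ^ κ ≤
      32 * D ^ 2 * mu n j ^ κ * ((x / mu n j - 1) ^ 4 * Ph (4 * K + 3) (x / mu n j) +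
        (m ^ 2)⁻¹ * Ph (4 * K + 3) (x / mu n j)) := by
    intro x hx
    have hy : 0 < x / mu n j := div_pos hx.1 hμ
    have h1 := pow_le_pow_left₀ (norm_nonneg _) (hE x hx) 2
    have h3 := rpow_mu hκ0 hκ1 hx.1 hμ
    have hxk := Real.rpow_pos_of_pos hx.1 κ
    have p0 := Ph_pos 1 hy
    have p1 := Ph_pos (2 * K + 1) hy
    have p2 := Ph_pos (4 * K + 3) hy
    have h4 := Ph_mul (a := 2 * K + 1) (b := 2 * K + 1) hy
    have h5 := Ph_mul (a := 2 * K + 1 + (2 * K + 1)) (b := 1) hy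
    have e5 : 2 * K + 1 + (2 * K + 1) + 1 = 4 * K + 3 := by ring
    rw [e5] at h5
    have h6 : Ph (2 * K + 1) (x / mu n j) ^ 2 * Ph 1 (x / mu n j) ≤ 16 * Ph (4 * K + 3) (x / mu n j) := by
      rw [pow_two]
      calc Ph (2 * K + 1) (x / mu n j) * Ph (2 * K + 1) (x / mu n j) * Ph 1 (x / mu n j)
          ≤ (4 * Ph (2 * K + 1 + (2 * K + 1)) (x / mu n j)) * Ph 1 (x / mu n j) :=
            mul_le_mul_of_nonneg_right h4 p0.le
        _ = 4 * (Ph (2 * K + 1 + (2 * K + 1)) (x / mu n j) * Ph 1 (x / mu n j)) := by ring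
        _ ≤ 4 * (4 * Ph (4 * K + 3) (x / mu n j)) := mul_le_mul_of_nonneg_left h5 (by norm_num)
        _ = _ := by ring
    have h7 : ((x / mu n j - 1) ^ 2 + m⁻¹) ^ 2 ≤ 2 * ((x / mu n j - 1) ^ 4 + (m ^ 2)⁻¹) := by
      have e6 : (m ^ 2)⁻¹ = (m⁻¹) ^ 2 := by rw [inv_pow]
      rw [e6]
      nlinarith [sq_nonneg ((x / mu n j - 1) ^ 2 - m⁻¹)]
    calc ‖sc δ (q + q') x / l'' - sc δ q x / l - sc δ q' x / l' + 1‖ ^ 2 * x ^ κ
        ≤ (D * (((x / mu n j - 1) ^ 2 + m⁻¹) * Ph (2 * K + 1) (x / mu n j))) ^ 2 *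
          (mu n j ^ κ * Ph 1 (x / mu n j)) := mul_le_mul h1 h3 hxk.le (by positivity)
      _ = D ^ 2 * mu n j ^ κ * (((x / mu n j - 1) ^ 2 + m⁻¹) ^ 2 *
          (Ph (2 * K + 1) (x / mu n j) ^ 2 * Ph 1 (x / mu n j))) := by ring
      _ ≤ D ^ 2 * mu n j ^ κ * ((2 * ((x / mu n j - 1) ^ 4 + (m ^ 2)⁻¹)) *
          (16 * Ph (4 * K + 3) (x / mu n j))) := by
          apply mul_le_mul_of_nonneg_left _ (by positivity)
          apply mul_le_mul h7 h6 (by positivity) (by positivity)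
      _ = _ := by ring
  have iF : Integrable (fun x => 32 * D ^ 2 * mu n j ^ κ * ((x / mu n j - 1) ^ 4 *
      Ph (4 * K + 3) (x / mu n j) + (m ^ 2)⁻¹ * Ph (4 * K + 3) (x / mu n j))) (bm n j) :=
    (k4.add (k0.const_mul _)).const_mul _
  refine (lar_mono iF ?_ hE2).trans ?_
  · intro x hx
    have := Real.rpow_pos_of_pos hx.1 κ
    positivity
  · rw [lar_mul, lar_eq, integral_add k4 (k0.const_mul _), ← lar_eq, ← lar_eq, lar_mul]
    calc 32 * D ^ 2 * mu n j ^ κ * (lar n (fun x => (x / mu n j - 1) ^ 4 * Ph (4 * K + 3) (x / mu n j)) j +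
          (m ^ 2)⁻¹ * lar n (fun x => Ph (4 * K + 3) (x / mu n j)) j)
        ≤ 32 * D ^ 2 * mu n j ^ κ * (C2 / m ^ 2 + (m ^ 2)⁻¹ * C2) := by gcongr
      _ = _ := by
          field_simp
          ring

theorem mu_kappa2 {n j : ℕ} (hn : 0 < n) {κ : ℝ} (hκ0 : 0 < κ) :
    mu n j ^ κ / ((j : ℝ) + 1) ^ 2 ≤ (n : ℝ) ^ (-κ) * ((j + 1 : ℕ) : ℝ) ^ (κ - 2) := by
  have hj0 : (0 : ℝ) ≤ j := Nat.cast_nonneg j
  have hm : (0 : ℝ) < (j : ℝ) + 1 := by linarith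
  have hn0 : (0 : ℝ) < n := by exact_mod_cast hn
  unfold mu
  have e1 : ((j + 1 : ℕ) : ℝ) = (j : ℝ) + 1 := by push_cast; ring
  rw [e1, Real.rpow_sub hm, show (2 : ℝ) = ((2 : ℕ) : ℝ) by norm_num, Real.rpow_natCast,
    Real.div_rpow hm.le (by positivity), Real.rpow_neg hn0.le]
  have h2 : (n : ℝ) ^ κ ≤ ((n : ℝ) + 1) ^ κ := Real.rpow_le_rpow hn0.le (by linarith) hκ0.le
  have h3 : 0 < (n : ℝ) ^ κ := Real.rpow_pos_of_pos hn0 _
  have h4 : 0 < ((j : ℝ) + 1) ^ κ := Real.rpow_pos_of_pos hm _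
  calc ((j : ℝ) + 1) ^ κ / ((n : ℝ) + 1) ^ κ / ((j : ℝ) + 1) ^ 2
      ≤ ((j : ℝ) + 1) ^ κ / (n : ℝ) ^ κ / ((j : ℝ) + 1) ^ 2 := by gcongr
    _ = _ := by
        field_simp

/-- package BET2 -/
theorem bet2 : S_BET2 := by
  intro δ q q' κ hδ _ hq hq' hqq hκ0 hκ1 h2 h2' h2q
  obtain ⟨M, C, hC, hbig⟩ := big_j2 q q' κ hq hq' hqq hκ0 hκ1
  choose D hD hsmall using small_j2 δ hδ q q' κ hq hq' hqq hκ0 h2 h2' h2q
  have hsum : Summable (fun j : ℕ => ((j + 1 : ℕ) : ℝ) ^ (κ - 2)) :=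
    (summable_nat_add_iff (f := fun j : ℕ => (j : ℝ) ^ (κ - 2)) 1).2
      (Real.summable_nat_rpow.2 (by linarith))
  obtain ⟨S, hS⟩ : ∃ S : ℝ, S = ∑' j : ℕ, ((j + 1 : ℕ) : ℝ) ^ (κ - 2) := ⟨_, rfl⟩
  have hev : ∀ᶠ n : ℕ in atTop, ∀ j ∈ Finset.range M,
      lar n (fun x => ‖Ee δ q q' n j x‖ ^ 2 * x ^ κ) j ≤ D j * (n : ℝ) ^ (-κ) := by
    rw [Filter.eventually_all_finset]
    intro j _
    exact hsmall j
  have hub : ∀ᶠ n : ℕ in atTop, ∑ j ∈ Finset.range n, lar n (fun x => ‖Ee δ q q' n j x‖ ^ 2 * x ^ κ) j ≤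
      (∑ j ∈ Finset.range M, D j + C * S) * (n : ℝ) ^ (-κ) := by
    filter_upwards [hev, eventually_ge_atTop M, eventually_gt_atTop 0] with n h3 h4 h5
    have hn0 : (0 : ℝ) < n := by exact_mod_cast h5
    have hnk : 0 < (n : ℝ) ^ (-κ) := Real.rpow_pos_of_pos hn0 _
    rw [← Finset.sum_range_add_sum_Ico _ h4, add_mul]
    apply add_le_add
    · rw [Finset.sum_mul]
      exact Finset.sum_le_sum h3
    · calc ∑ j ∈ Finset.Ico M n, lar n (fun x => ‖Ee δ q q' n j x‖ ^ 2 * x ^ κ) j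
          ≤ ∑ j ∈ Finset.Ico M n, C * ((n : ℝ) ^ (-κ) * ((j + 1 : ℕ) : ℝ) ^ (κ - 2)) := by
            apply Finset.sum_le_sum
            intro j hj
            rw [Finset.mem_Ico] at hj
            refine (hbig δ hδ n j hj.2 (by omega)).trans ?_
            exact mul_le_mul_of_nonneg_left (mu_kappa2 h5 hκ0) hC.le
        _ = C * (n : ℝ) ^ (-κ) * ∑ j ∈ Finset.Ico M n, ((j + 1 : ℕ) : ℝ) ^ (κ - 2) := by
            rw [Finset.mul_sum]
            apply Finset.sum_congr rfl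
            intro j _
            ring
        _ ≤ C * (n : ℝ) ^ (-κ) * S := by
            apply mul_le_mul_of_nonneg_left _ (by positivity)
            rw [hS]
            exact hsum.sum_le_tsum _ (fun j _ => by positivity)
        _ = _ := by ring
  have hlim : Tendsto (fun n : ℕ => (∑ j ∈ Finset.range M, D j + C * S) * (n : ℝ) ^ (-κ)) atTop (𝓝 0) := by
    have h := ((tendsto_rpow_neg_atTop hκ0).comp tendsto_natCast_atTop_atTop).const_mul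
      (∑ j ∈ Finset.range M, D j + C * S)
    rw [mul_zero] at h
    exact h
  refine tendsto_of_tendsto_of_tendsto_of_le_of_le' tendsto_const_nhds hlim ?_ hub
  refine Eventually.of_forall fun n => ?_
  apply Finset.sum_nonneg
  intro j _
  rw [lar_eq]
  apply integral_nonneg_of_ae
  filter_upwards [bm_mem n j] with x hx
  have := Real.rpow_pos_of_pos hx.1 κ
  simp only [Pi.zero_apply]
  positivity

end Pool.Agent.P8H93.FM
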