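import Pool.Agent.P8H98.FM.Stm

/-! # Beta laws with integer parameters (package BET of project FM, helper93), part A -/

set_option autoImplicit false

namespace Pool.Agent.P8H93.FM

open MeasureTheory Complex Filter Topology Pool.Agent.P8H98.FM

theorem bd_nonneg (n j : ℕ) {x : ℝ} (h0 : 0 ≤ x) (h1 : x ≤ 1) : 0 ≤ bd n j x := by
  unfold bd
  have : 0 ≤ 1 - x := by linarith
  positivity

theorem bd_cont (n j : ℕ) : Continuous (bd n j) := by
  unfold bd
  fun_prop

/-- the complex moments -/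
theorem lam_cpow (n j : ℕ) (a : ℂ) :
    lam n (fun x => (x : ℂ) ^ a) j =
      n * (n - 1).choose j * betaIntegral (j + 1 + a) (((n - 1 - j : ℕ) : ℂ) + 1) := by
  unfold lam betaIntegral
  rw [← intervalIntegral.integral_const_mul]
  apply intervalIntegral.integral_congr_ae
  refine Eventually.of_forall fun x hx => ?_
  rw [Set.uIoc_of_le zero_le_one] at hx
  have hx0 : (x : ℂ) ≠ 0 := by exact_mod_cast hx.1.ne'
  have e1 : (x : ℂ) ^ ((j : ℂ) + 1 + a - 1) = (x : ℂ) ^ j * (x : ℂ) ^ a := by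
    rw [show (j : ℂ) + 1 + a - 1 = j + a by ring, cpow_add _ _ hx0, cpow_natCast]
  have e2 : (1 - (x : ℂ)) ^ (((n - 1 - j : ℕ) : ℂ) + 1 - 1) = (1 - (x : ℂ)) ^ (n - 1 - j) := by
    rw [add_sub_cancel_right, cpow_natCast]
  rw [e1, e2]
  unfold bd
  push_cast
  ring

theorem lam_one (n j : ℕ) : lam n (fun _ => 1) j = ((lar n (fun _ => 1) j : ℝ) : ℂ) := by
  unfold lam lar
  simp only [mul_one]
  exact intervalIntegral.integral_ofReal

/-- normalisation -/
theorem lar_one {n j : ℕ} (hj : j < n) : lar n (fun _ => 1) j = 1 := by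
  have h1 := lam_cpow n j 0
  simp only [cpow_zero, add_zero] at h1
  rw [lam_one] at h1
  have h2 : (0 : ℝ) < ((j : ℂ) + 1).re := by
    simp
    positivity
  rw [betaIntegral_eval_nat_add_one_right h2] at h1
  obtain ⟨r, hr⟩ : ∃ r, n = j + r + 1 := ⟨n - 1 - j, by omega⟩
  have hr2 : n - 1 - j = r := by omega
  have hr3 : n - 1 = j + r := by omega
  rw [hr2, hr3] at h1
  have h3 : (∏ i ∈ Finset.range (r + 1), ((j : ℂ) + 1 + i)) = (((j + 1).ascFactorial (r + 1) : ℕ) : ℂ) := by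
    rw [Nat.ascFactorial_eq_prod_range]
    push_cast
    rfl
  have h4 : (j.factorial : ℂ) * (((j + 1).ascFactorial (r + 1) : ℕ) : ℂ) = ((j + (r + 1)).factorial : ℂ) := by
    exact_mod_cast Nat.factorial_mul_ascFactorial j (r + 1)
  have h5 : ((j + r).choose j : ℂ) * (j.factorial : ℂ) * (r.factorial : ℂ) = ((j + r).factorial : ℂ) := by
    have := Nat.choose_mul_factorial_mul_factorial (Nat.le_add_right j r)
    rw [Nat.add_sub_cancel_left] at this
    exact_mod_cast this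
  have h6 : ((j + (r + 1)).factorial : ℂ) = n * ((j + r).factorial : ℂ) := by
    rw [← add_assoc, Nat.factorial_succ, hr]
    push_cast
    ring
  have hj0 : (j.factorial : ℂ) ≠ 0 := by exact_mod_cast j.factorial_ne_zero
  have hA0 : (((j + 1).ascFactorial (r + 1) : ℕ) : ℂ) ≠ 0 := by
    exact_mod_cast (Nat.ascFactorial_pos j (r + 1)).ne'
  have h7 : ((lar n (fun _ => 1) j : ℝ) : ℂ) = 1 := by
    rw [h1, h3]
    rw [mul_div_assoc', div_eq_iff hA0, one_mul]
    apply mul_left_cancel₀ hj0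
    rw [h4, h6, ← h5]
    ring
  exact_mod_cast h7

/-- the ratio of the moments -/
noncomputable def rr (n j K : ℕ) : ℝ := ∏ i ∈ Finset.range K, ((j : ℝ) + 1 + i) / (n + 1 + i)

theorem rr_pos (n j K : ℕ) : 0 < rr n j K := Finset.prod_pos fun i _ => by positivity

theorem bd_shift1 {n j : ℕ} (hn : 1 ≤ n) (x : ℝ) :
    bd n j x * x = ((j : ℝ) + 1) / (n + 1) * bd (n + 1) (j + 1) x := by
  obtain ⟨k, rfl⟩ : ∃ k, n = k + 1 := ⟨n - 1, by omega⟩
  unfold bd
  have e1 : k + 1 + 1 - 1 - (j + 1) = k + 1 - 1 - j := by omega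
  have h1 : ((k : ℝ) + 1) * (k.choose j : ℝ) = ((k + 1).choose (j + 1) : ℝ) * (j + 1) := by
    exact_mod_cast Nat.add_one_mul_choose_eq k j
  rw [e1]
  simp only [Nat.add_sub_cancel]
  push_cast
  have h2 : ((k : ℝ) + 1 + 1) ≠ 0 := by positivity
  field_simp
  rw [pow_succ]
  linear_combination (x ^ j * x * (1 - x) ^ (k - j)) * h1

theorem bd_shift {n j : ℕ} (hn : 1 ≤ n) (K : ℕ) (x : ℝ) :
    bd n j x * x ^ K = rr n j K * bd (n + K) (j + K) x := by
  induction K with
  | zero => simp [rr]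
  | succ K ih =>
    have e1 : ((j + K : ℕ) : ℝ) + 1 = j + 1 + K := by push_cast; ring
    have e2 : ((n + K : ℕ) : ℝ) + 1 = n + 1 + K := by push_cast; ring
    rw [pow_succ, ← mul_assoc, ih, mul_assoc, bd_shift1 (by omega), e1, e2]
    unfold rr
    rw [Finset.prod_range_succ, add_assoc n K 1, add_assoc j K 1]
    ring

theorem lar_shift {n j : ℕ} (hn : 1 ≤ n) (K : ℕ) (g : ℝ → ℝ) :
    lar n (fun x => x ^ K * g x) j = rr n j K * lar (n + K) g (j + K) := by
  unfold lar
  rw [← intervalIntegral.integral_const_mul]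
  apply intervalIntegral.integral_congr
  intro x _
  simp only
  rw [← mul_assoc, bd_shift hn, mul_assoc]

theorem lar_pow {n j : ℕ} (hj : j < n) (K : ℕ) : lar n (fun x => x ^ K) j = rr n j K := by
  have h := lar_shift (n := n) (j := j) (by omega) K (fun _ => 1)
  simp only [mul_one] at h
  rw [h, lar_one (by omega), mul_one]

theorem lar_add {n j : ℕ} {f g : ℝ → ℝ} (hf : Continuous f) (hg : Continuous g) :
    lar n (fun x => f x + g x) j = lar n f j + lar n g j := by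
  unfold lar
  rw [← intervalIntegral.integral_add]
  · apply intervalIntegral.integral_congr
    intro x _
    simp only
    ring
  · exact ((bd_cont n j).mul hf).intervalIntegrable _ _
  · exact ((bd_cont n j).mul hg).intervalIntegrable _ _

theorem lar_mul {n j : ℕ} (c : ℝ) (f : ℝ → ℝ) :
    lar n (fun x => c * f x) j = c * lar n f j := by
  unfold lar
  rw [← intervalIntegral.integral_const_mul]
  apply intervalIntegral.integral_congr
  intro x _
  simp only
  ring

/-- second moment around an arbitrary point -/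
theorem lar_sq {n j : ℕ} (hj : j < n) (c : ℝ) : lar n (fun x => (x - c) ^ 2) j =
    rr n j 2 - 2 * c * rr n j 1 + c ^ 2 := by
  have e : (fun x : ℝ => (x - c) ^ 2) = fun x => (x ^ 2 + (-2 * c) * x ^ 1) + c ^ 2 * 1 := by
    funext x; ring
  rw [e, lar_add (by fun_prop) (by fun_prop), lar_add (by fun_prop) (by fun_prop), lar_mul, lar_mul,
    lar_pow hj, lar_pow hj, lar_one hj]
  ring

theorem lar_four {n j : ℕ} (hj : j < n) (c : ℝ) : lar n (fun x => (x - c) ^ 4) j =
    rr n j 4 - 4 * c * rr n j 3 + 6 * c ^ 2 * rr n j 2 - 4 * c ^ 3 * rr n j 1 + c ^ 4 := by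
  have e : (fun x : ℝ => (x - c) ^ 4) = fun x => (((x ^ 4 + (-4 * c) * x ^ 3) + 6 * c ^ 2 * x ^ 2) +
      (-4 * c ^ 3) * x ^ 1) + c ^ 4 * 1 := by
    funext x; ring
  rw [e, lar_add (by fun_prop) (by fun_prop), lar_add (by fun_prop) (by fun_prop),
    lar_add (by fun_prop) (by fun_prop), lar_add (by fun_prop) (by fun_prop), lar_mul, lar_mul,
    lar_mul, lar_mul, lar_pow hj, lar_pow hj, lar_pow hj, lar_pow hj, lar_one hj]
  ring

/-- the mean -/
noncomputable def mu (n j : ℕ) : ℝ := ((j : ℝ) + 1) / (n + 1)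

theorem mu_pos (n j : ℕ) : 0 < mu n j := by unfold mu; positivity

theorem mu_le {n j : ℕ} (hj : j < n) : mu n j < 1 := by
  unfold mu
  rw [div_lt_one (by positivity)]
  have : (j : ℝ) < n := by exact_mod_cast hj
  linarith

theorem var_two {n j : ℕ} (hj : j < n) : lar n (fun x => (x - mu n j) ^ 2) j ≤
    mu n j ^ 2 / ((j : ℝ) + 1) := by
  rw [lar_sq hj]
  unfold rr mu
  simp only [Finset.prod_range_succ, Finset.prod_range_zero, one_mul]
  have hjn : (j : ℝ) + 1 ≤ n := by exact_mod_cast hj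
  have hj0 : (0 : ℝ) ≤ j := Nat.cast_nonneg j
  push_cast
  generalize (j : ℝ) = a at *
  generalize (n : ℝ) = b at *
  have h1 : 0 < b + 1 := by linarith
  have h2 : 0 < a + 1 := by linarith
  have h1' : 0 < b + 2 := by linarith
  have h1'' : b + 1 + 1 ≠ 0 := by linarith
  have e : (a + 1 + 0) / (b + 1 + 0) * ((a + 1 + 1) / (b + 1 + 1)) -
      2 * ((a + 1) / (b + 1)) * ((a + 1 + 0) / (b + 1 + 0)) + ((a + 1) / (b + 1)) ^ 2 =
      (a + 1) * (b - a) / ((b + 1) ^ 2 * (b + 2)) := by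
    have h5 : b + 1 + 1 = b + 2 := by ring
    rw [add_zero, add_zero, h5]
    field_simp
    ring
  rw [e, div_pow, div_div, div_le_div_iff₀ (by positivity) (by positivity)]
  have h3 : (b - a) ≤ b + 2 := by linarith
  have h4 : 0 ≤ (a + 1) ^ 2 * (b + 1) ^ 2 := by positivity
  nlinarith [mul_le_mul_of_nonneg_left h3 h4]

theorem var_four {n j : ℕ} (hj : j < n) : lar n (fun x => (x - mu n j) ^ 4) j ≤
    9 * mu n j ^ 4 / ((j : ℝ) + 1) ^ 2 := by
  rw [lar_four hj]
  unfold rr mu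
  simp only [Finset.prod_range_succ, Finset.prod_range_zero, one_mul]
  have hjn : (j : ℝ) + 1 ≤ n := by exact_mod_cast hj
  have hj0 : (0 : ℝ) ≤ j := Nat.cast_nonneg j
  push_cast
  have h1 : (0 : ℝ) < n + 1 := by linarith
  have h2 : (0 : ℝ) < j + 1 := by linarith
  obtain ⟨a, ha⟩ : ∃ a : ℝ, a = (j : ℝ) + 1 := ⟨_, rfl⟩
  obtain ⟨N, hN⟩ : ∃ N : ℝ, N = (n : ℝ) + 1 := ⟨_, rfl⟩
  rw [← ha, ← hN]
  simp only [add_zero]
  have ha1 : 1 ≤ a := by linarith
  have haN : a ≤ N := by linarith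
  have e : a / N * ((a + 1) / (N + 1)) * ((a + 2) / (N + 2)) * ((a + 3) / (N + 3)) -
      4 * (a / N) * (a / N * ((a + 1) / (N + 1)) * ((a + 2) / (N + 2))) +
      6 * (a / N) ^ 2 * (a / N * ((a + 1) / (N + 1))) -
      4 * (a / N) ^ 3 * (a / N) + (a / N) ^ 4 =
      3 * a * (N - a) * (2 * N ^ 2 + a * (N - a) * (N - 6)) / (N ^ 4 * ((N + 1) * (N + 2) * (N + 3))) := by
    have : N ≠ 0 := by linarith
    have : N + 1 ≠ 0 := by linarith
    have : N + 2 ≠ 0 := by linarith
    have : N + 3 ≠ 0 := by linarith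
    field_simp
    ring
  rw [e]
  have hN0 : 0 < N := by linarith
  have e2 : 9 * (a / N) ^ 4 / a ^ 2 = 9 * a ^ 2 / N ^ 4 := by
    field_simp
  rw [e2, ← div_div, div_right_comm]
  apply div_le_div_of_nonneg_right _ (by positivity)
  rw [div_le_iff₀ (by positivity)]
  have h3 : 0 ≤ N - a := by linarith
  have h5 : (N - a) * (2 * N ^ 2) ≤ 2 * a * N ^ 3 := by
    nlinarith [mul_nonneg h3 (sq_nonneg N), mul_nonneg (by linarith : (0:ℝ) ≤ a - 1) (pow_nonneg hN0.le 3), pow_pos hN0 2,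
      mul_nonneg (by linarith : (0:ℝ) ≤ a) (pow_nonneg hN0.le 2)]
  have h6 : (N - a) * (a * (N - a) * (N - 6)) ≤ a * N ^ 3 := by
    have h7 : (N - a) ^ 2 ≤ N ^ 2 := by nlinarith
    have h8 : (N - a) ^ 2 * (N - 6) ≤ N ^ 2 * N := by nlinarith [sq_nonneg (N - a)]
    nlinarith
  have h9 : N ^ 3 ≤ (N + 1) * (N + 2) * (N + 3) := by nlinarith [pow_pos hN0 2]
  have h10 : (N - a) * (2 * N ^ 2 + a * (N - a) * (N - 6)) ≤ 3 * a * ((N + 1) * (N + 2) * (N + 3)) := by
    nlinarith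
  nlinarith [mul_le_mul_of_nonneg_left h10 (by linarith : (0 : ℝ) ≤ 3 * a)]

end Pool.Agent.P8H93.FM
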