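import Pool.Agent.P8H93.FM.BetA

/-! # Beta laws with integer parameters (package BET of project FM, helper93), part B: the law as a
measure, concentration around the mean -/

set_option autoImplicit false

namespace Pool.Agent.P8H93.FM

open MeasureTheory Complex Filter Topology Pool.Agent.P8H98.FM

/-- the Beta law -/
noncomputable def bm (n j : ℕ) : Measure ℝ :=
  (volume.restrict (Set.Ioo (0 : ℝ) 1)).withDensity (fun x => ENNReal.ofReal (bd n j x))

theorem bm_int {E : Type} [NormedAddCommGroup E] [NormedSpace ℝ E] (n j : ℕ) (f : ℝ → E) :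
    ∫ x, f x ∂(bm n j) = ∫ x in (0 : ℝ)..1, bd n j x • f x := by
  unfold bm
  rw [integral_withDensity_eq_integral_toReal_smul (by
      exact (bd_cont n j).measurable.ennreal_ofReal) (Eventually.of_forall fun x => ENNReal.ofReal_lt_top),
    intervalIntegral.integral_of_le zero_le_one, ← integral_Ioc_eq_integral_Ioo]
  apply setIntegral_congr_fun measurableSet_Ioc
  intro x hx
  simp only
  rw [ENNReal.toReal_ofReal (bd_nonneg n j hx.1.le hx.2)]

theorem lar_eq (n j : ℕ) (f : ℝ → ℝ) : lar n f j = ∫ x, f x ∂(bm n j) := by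
  rw [bm_int]
  rfl

theorem lam_eq (n j : ℕ) (f : ℝ → ℂ) : lam n f j = ∫ x, f x ∂(bm n j) := by
  rw [bm_int]
  unfold lam
  apply intervalIntegral.integral_congr
  intro x _
  simp only [Complex.real_smul]

theorem bm_mem (n j : ℕ) : ∀ᵐ x ∂(bm n j), x ∈ Set.Ioo (0 : ℝ) 1 := by
  unfold bm
  exact (withDensity_absolutelyContinuous _ _).ae_le (ae_restrict_mem measurableSet_Ioo)

theorem bm_integrable {n j : ℕ} {E : Type} [NormedAddCommGroup E] [NormedSpace ℝ E] {f : ℝ → E}
    (hf : AEStronglyMeasurable f (volume.restrict (Set.Ioo (0 : ℝ) 1))) {a : ℝ} (ha : -((j : ℝ) + 1) < a) (C : ℝ)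
    (hb : ∀ x ∈ Set.Ioo (0 : ℝ) 1, ‖f x‖ ≤ C * x ^ a) : Integrable f (bm n j) := by
  unfold bm
  rw [integrable_withDensity_iff_integrable_smul' ((bd_cont n j).measurable.ennreal_ofReal)
    (Eventually.of_forall fun x => ENNReal.ofReal_lt_top)]
  have h1 : IntegrableOn (fun x : ℝ => x ^ ((j : ℝ) + a)) (Set.Ioo 0 1) := by
    rw [← integrableOn_Ioc_iff_integrableOn_Ioo, ← intervalIntegrable_iff_integrableOn_Ioc_of_le zero_le_one]
    exact intervalIntegral.intervalIntegrable_rpow' (by linarith)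
  refine Integrable.mono' (h1.integrable.const_mul (n * (n - 1).choose j * C)) ?_ ?_
  · exact ((bd_cont n j).measurable.ennreal_ofReal.ennreal_toReal.aestronglyMeasurable).smul hf
  · filter_upwards [ae_restrict_mem measurableSet_Ioo] with x hx
    rw [ENNReal.toReal_ofReal (bd_nonneg n j hx.1.le hx.2.le), norm_smul, Real.norm_eq_abs,
      abs_of_nonneg (bd_nonneg n j hx.1.le hx.2.le)]
    have h2 : bd n j x ≤ n * (n - 1).choose j * x ^ j := by
      unfold bd
      apply mul_le_of_le_one_right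
      · have := hx.1.le
        positivity
      · exact pow_le_one₀ (by linarith [hx.2]) (by linarith [hx.1])
    have h3 : 0 ≤ C * x ^ a := (norm_nonneg _).trans (hb x hx)
    calc bd n j x * ‖f x‖ ≤ (n * (n - 1).choose j * x ^ j) * (C * x ^ a) := by
          apply mul_le_mul h2 (hb x hx) (norm_nonneg _)
          have := hx.1.le
          positivity
      _ = n * (n - 1).choose j * C * x ^ ((j : ℝ) + a) := by
          rw [Real.rpow_add hx.1, Real.rpow_natCast]
          ring

theorem bm_prob {n j : ℕ} (hj : j < n) : IsProbabilityMeasure (bm n j) := by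
  have h1 := lar_one hj
  rw [lar_eq] at h1
  have h2 : Integrable (fun _ : ℝ => (1 : ℝ)) (bm n j) := by
    apply bm_integrable (a := 0) (C := 1)
    · fun_prop
    · have : (0 : ℝ) ≤ j := Nat.cast_nonneg j
      linarith
    · intro x _
      simp
  rw [integral_const, smul_eq_mul, mul_one] at h1
  have h3 : (bm n j) Set.univ ≠ ⊤ := by
    rw [integrable_const_iff] at h2
    rcases h2 with h2 | h2
    · norm_num at h2
    · exact (h2.measure_univ_lt_top).ne
  constructor
  rw [Measure.real] at h1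
  rw [← ENNReal.ofReal_toReal h3, h1, ENNReal.ofReal_one]

/-- the weights -/
noncomputable def Ph (K : ℕ) (y : ℝ) : ℝ := y ^ K + (y ^ K)⁻¹

theorem Ph_pos (K : ℕ) {y : ℝ} (hy : 0 < y) : 0 < Ph K y := by
  unfold Ph
  positivity

theorem lar_mono {n j : ℕ} {f g : ℝ → ℝ} (hg : Integrable g (bm n j))
    (hf : ∀ x ∈ Set.Ioo (0 : ℝ) 1, 0 ≤ f x) (h : ∀ x ∈ Set.Ioo (0 : ℝ) 1, f x ≤ g x) :
    lar n f j ≤ lar n g j := by
  rw [lar_eq, lar_eq]
  apply integral_mono_of_nonneg
  · filter_upwards [bm_mem n j] with x hx using hf x hx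
  · exact hg
  · filter_upwards [bm_mem n j] with x hx using h x hx

theorem cont_integrable {n j : ℕ} {f : ℝ → ℝ} (hf : Continuous f) : Integrable f (bm n j) := by
  obtain ⟨C, hC⟩ := isCompact_Icc.exists_bound_of_continuousOn (s := Set.Icc (0 : ℝ) 1) hf.continuousOn
  apply bm_integrable (a := 0) (C := C)
  · exact hf.aestronglyMeasurable
  · have : (0 : ℝ) ≤ j := Nat.cast_nonneg j
    linarith
  · intro x hx
    rw [Real.rpow_zero, mul_one]
    exact hC x ⟨hx.1.le, hx.2.le⟩

theorem second_c {n j : ℕ} (hj : j < n) (c : ℝ) : lar n (fun x => (x - c) ^ 2) j ≤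
    mu n j ^ 2 / ((j : ℝ) + 1) + (mu n j - c) ^ 2 := by
  have h1 := var_two hj
  have h2 := lar_sq hj c
  have h3 := lar_sq hj (mu n j)
  have h4 : rr n j 1 = mu n j := by
    unfold rr mu
    simp
  rw [h4] at h2 h3
  rw [h2]
  rw [h3] at h1
  linarith

theorem fourth_c {n j : ℕ} (hj : j < n) (c : ℝ) : lar n (fun x => (x - c) ^ 4) j ≤
    72 * mu n j ^ 4 / ((j : ℝ) + 1) ^ 2 + 8 * (mu n j - c) ^ 4 := by
  have h1 := var_four hj
  have h2 : lar n (fun x => (x - c) ^ 4) j ≤
      lar n (fun x => 8 * (x - mu n j) ^ 4 + 8 * (mu n j - c) ^ 4 * 1) j := by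
    apply lar_mono
    · exact cont_integrable (by fun_prop)
    · intro x _
      positivity
    · intro x _
      have e : x - c = (x - mu n j) + (mu n j - c) := by ring
      rw [e, mul_one]
      generalize x - mu n j = s
      generalize mu n j - c = t
      nlinarith [sq_nonneg (s ^ 2 - t ^ 2), sq_nonneg (s - t), sq_nonneg (s + t), sq_nonneg (s * t),
        mul_nonneg (sq_nonneg (s - t)) (sq_nonneg (s + t)), sq_nonneg ((s - t) ^ 2),
        mul_nonneg (sq_nonneg (s - t)) (sq_nonneg s), mul_nonneg (sq_nonneg (s - t)) (sq_nonneg t)]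
  rw [lar_add (by fun_prop) (by fun_prop), lar_mul, lar_mul, lar_one hj] at h2
  have e : 72 * mu n j ^ 4 / ((j : ℝ) + 1) ^ 2 = 8 * (9 * mu n j ^ 4 / ((j : ℝ) + 1) ^ 2) := by ring
  rw [e]
  linarith

end Pool.Agent.P8H93.FM
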