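import Pool.Agent.P8H93.FM.BetB

/-! # Beta laws with integer parameters (package BET of project FM, helper93), part C: weighted
concentration around the mean -/

set_option autoImplicit false

namespace Pool.Agent.P8H93.FM

open MeasureTheory Complex Filter Topology Pool.Agent.P8H98.FM

theorem shift_neg {n j : ℕ} (hj : j < n) (K : ℕ) (g : ℝ → ℝ) :
    lar (n + K) (fun x => g x * (x ^ K)⁻¹) (j + K) = (rr n j K)⁻¹ * lar n g j := by
  unfold lar
  rw [← intervalIntegral.integral_const_mul]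
  apply intervalIntegral.integral_congr_ae
  refine Eventually.of_forall fun x hx => ?_
  rw [Set.uIoc_of_le zero_le_one] at hx
  have h1 := bd_shift (n := n) (j := j) (by omega) K x
  have h2 := (rr_pos n j K).ne'
  have h3 : x ^ K ≠ 0 := (pow_pos hx.1 K).ne'
  have h4 : bd (n + K) (j + K) x = (rr n j K)⁻¹ * (bd n j x * x ^ K) := by
    rw [h1, ← mul_assoc, inv_mul_cancel₀ h2, one_mul]
  rw [h4]
  field_simp

theorem rr_le {n j K : ℕ} (hK : K ≤ j + 1) : rr n j K ≤ (2 * mu n j) ^ K := by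
  unfold rr mu
  have e : (2 * (((j : ℝ) + 1) / (n + 1))) ^ K = ∏ _i ∈ Finset.range K, (2 * (((j : ℝ) + 1) / (n + 1))) := by
    rw [Finset.prod_const, Finset.card_range]
  rw [e]
  apply Finset.prod_le_prod
  · intro i _
    positivity
  · intro i hi
    rw [Finset.mem_range] at hi
    have h1 : (i : ℝ) ≤ (j : ℝ) + 1 := by exact_mod_cast (by omega : i ≤ j + 1)
    rw [mul_div_assoc']
    apply div_le_div₀ (by positivity) (by linarith) (by positivity)
    have : (0 : ℝ) ≤ i := Nat.cast_nonneg i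
    linarith

theorem rr_inv_le {n j K : ℕ} (hK : K ≤ j + 1) :
    (rr n j K)⁻¹ ≤ (2 / mu (n + K) (j + K)) ^ K := by
  unfold rr mu
  rw [← Finset.prod_inv_distrib]
  have e : (2 / ((((j + K : ℕ) : ℝ) + 1) / (((n + K : ℕ) : ℝ) + 1))) ^ K =
      ∏ _i ∈ Finset.range K, (2 / ((((j + K : ℕ) : ℝ) + 1) / (((n + K : ℕ) : ℝ) + 1))) := by
    rw [Finset.prod_const, Finset.card_range]
  rw [e]
  apply Finset.prod_le_prod
  · intro i _
    positivity
  · intro i hi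
    rw [Finset.mem_range] at hi
    push_cast
    rw [inv_div, div_div_eq_mul_div, div_le_div_iff₀ (by positivity) (by positivity)]
    have h1 : (K : ℝ) ≤ (j : ℝ) + 1 := by exact_mod_cast hK
    have h2 : (i : ℝ) ≤ K := by exact_mod_cast hi.le
    have h3 : (0 : ℝ) ≤ i := Nat.cast_nonneg i
    have h4 : (n : ℝ) + 1 + i ≤ n + K + 1 := by linarith
    have h5 : (j : ℝ) + K + 1 ≤ 2 * (j + 1 + i) := by linarith
    have h6 : (0 : ℝ) ≤ (n : ℝ) + K + 1 := by positivity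
    have h7 : (0 : ℝ) ≤ (j : ℝ) + K + 1 := by positivity
    nlinarith

theorem Ph_bound {n j K : ℕ} (hj : j < n) (hK : 2 * K ≤ j + 1) {g : ℝ → ℝ} (hg : Continuous g)
    (hg0 : ∀ x, 0 ≤ g x) : Integrable (fun x => g x * Ph K (x / mu n j)) (bm n j) ∧
    lar n (fun x => g x * Ph K (x / mu n j)) j ≤
      2 ^ K * (lar (n + K) g (j + K) + lar (n - K) g (j - K)) := by
  have hμ := mu_pos n j
  obtain ⟨C, hC⟩ := isCompact_Icc.exists_bound_of_continuousOn (s := Set.Icc (0 : ℝ) 1) hg.continuousOn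
  have hC0 : 0 ≤ C := (norm_nonneg _).trans (hC 0 ⟨le_rfl, zero_le_one⟩)
  have hj0 : (0 : ℝ) ≤ j := Nat.cast_nonneg j
  have i1 : Integrable (fun x => (mu n j ^ K)⁻¹ * (x ^ K * g x)) (bm n j) :=
    cont_integrable (by fun_prop)
  have i2 : Integrable (fun x => mu n j ^ K * (g x * (x ^ K)⁻¹)) (bm n j) := by
    apply Integrable.const_mul
    apply bm_integrable (a := -(K : ℝ)) (C := C)
    · exact (hg.measurable.mul (measurable_id.pow_const K).inv).aestronglyMeasurable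
    · have : (2 : ℝ) * K ≤ j + 1 := by exact_mod_cast hK
      have h0 : (0 : ℝ) ≤ K := Nat.cast_nonneg K
      linarith
    · intro x hx
      rw [norm_mul, norm_inv, norm_pow, Real.norm_of_nonneg hx.1.le, Real.rpow_neg hx.1.le,
        Real.rpow_natCast]
      have := hx.1
      apply mul_le_mul_of_nonneg_right (hC x ⟨hx.1.le, hx.2.le⟩) (by positivity)
  have e : ∀ x, g x * Ph K (x / mu n j) =
      (mu n j ^ K)⁻¹ * (x ^ K * g x) + mu n j ^ K * (g x * (x ^ K)⁻¹) := by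
    intro x
    unfold Ph
    rw [div_pow, inv_div, div_eq_mul_inv, div_eq_mul_inv]
    ring
  have e' : (fun x => g x * Ph K (x / mu n j)) = fun x =>
      (mu n j ^ K)⁻¹ * (x ^ K * g x) + mu n j ^ K * (g x * (x ^ K)⁻¹) := funext e
  rw [e']
  refine ⟨i1.add i2, ?_⟩
  rw [lar_eq, integral_add i1 i2, ← lar_eq, ← lar_eq, lar_mul, lar_mul, lar_shift (by omega)]
  obtain ⟨j', rfl⟩ : ∃ j', j = j' + K := ⟨j - K, by omega⟩
  obtain ⟨n', rfl⟩ : ∃ n', n = n' + K := ⟨n - K, by omega⟩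
  rw [shift_neg (by omega), Nat.add_sub_cancel, Nat.add_sub_cancel]
  have p1 : 0 ≤ lar (n' + K + K) g (j' + K + K) := by
    rw [lar_eq]
    exact integral_nonneg hg0
  have p2 : 0 ≤ lar n' g j' := by
    rw [lar_eq]
    exact integral_nonneg hg0
  have q1 : (mu (n' + K) (j' + K) ^ K)⁻¹ * rr (n' + K) (j' + K) K ≤ 2 ^ K := by
    rw [inv_mul_le_iff₀ (by positivity), ← mul_pow, mul_comm]
    exact rr_le (by omega)
  have q2 : mu (n' + K) (j' + K) ^ K * (rr n' j' K)⁻¹ ≤ 2 ^ K := by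
    calc mu (n' + K) (j' + K) ^ K * (rr n' j' K)⁻¹
        ≤ mu (n' + K) (j' + K) ^ K * (2 / mu (n' + K) (j' + K)) ^ K := by
          apply mul_le_mul_of_nonneg_left (rr_inv_le (by omega)) (by positivity)
      _ = 2 ^ K := by
          rw [← mul_pow, mul_div_cancel₀ _ hμ.ne']
  calc (mu (n' + K) (j' + K) ^ K)⁻¹ * (rr (n' + K) (j' + K) K * lar (n' + K + K) g (j' + K + K)) +
        mu (n' + K) (j' + K) ^ K * ((rr n' j' K)⁻¹ * lar n' g j')
      = ((mu (n' + K) (j' + K) ^ K)⁻¹ * rr (n' + K) (j' + K) K) * lar (n' + K + K) g (j' + K + K) +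
        (mu (n' + K) (j' + K) ^ K * (rr n' j' K)⁻¹) * lar n' g j' := by ring
    _ ≤ 2 ^ K * lar (n' + K + K) g (j' + K + K) + 2 ^ K * lar n' g j' := by gcongr
    _ = _ := by ring

/-- the shifted means -/
theorem mu_up {n j : ℕ} (hj : j < n) (K : ℕ) (hK : 2 * K ≤ j + 1) :
    mu (n + K) (j + K) ≤ 2 * mu n j ∧ |mu (n + K) (j + K) - mu n j| ≤ K * mu n j / ((j : ℝ) + 1) := by
  unfold mu
  have h1 : (2 : ℝ) * K ≤ j + 1 := by exact_mod_cast hK
  have h2 : (j : ℝ) + 1 ≤ n := by exact_mod_cast hj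
  have h0 : (0 : ℝ) ≤ K := Nat.cast_nonneg K
  have hj0 : (0 : ℝ) ≤ j := Nat.cast_nonneg j
  push_cast
  constructor
  · rw [mul_div_assoc', div_le_div_iff₀ (by positivity) (by positivity)]
    nlinarith
  · have e : (((j : ℝ) + K + 1) / (n + K + 1) - (j + 1) / (n + 1)) =
        K * (n - j) / ((n + K + 1) * (n + 1)) := by
      field_simp
      ring
    rw [e, abs_of_nonneg (by
      apply div_nonneg _ (by positivity)
      apply mul_nonneg h0
      linarith)]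
    have e2 : (K : ℝ) * ((j + 1) / (n + 1)) / (j + 1) = K / (n + 1) := by
      field_simp
    rw [e2, div_le_div_iff₀ (by positivity) (by positivity)]
    have h3 : (n : ℝ) - j ≤ n + K + 1 := by linarith
    have h4 : 0 ≤ (K : ℝ) * (n + 1) := by positivity
    nlinarith [mul_le_mul_of_nonneg_left h3 h4]

theorem mu_down {n j : ℕ} (hj : j < n) (K : ℕ) (hK : K ≤ j + 1) :
    mu n j ≤ mu (n + K) (j + K) ∧
      |mu n j - mu (n + K) (j + K)| ≤ K * mu (n + K) (j + K) / (((j + K : ℕ) : ℝ) + 1) := by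
  unfold mu
  have h1 : (K : ℝ) ≤ j + 1 := by exact_mod_cast hK
  have h2 : (j : ℝ) + 1 ≤ n := by exact_mod_cast hj
  have h0 : (0 : ℝ) ≤ K := Nat.cast_nonneg K
  have hj0 : (0 : ℝ) ≤ j := Nat.cast_nonneg j
  push_cast
  constructor
  · rw [div_le_div_iff₀ (by positivity) (by positivity)]
    nlinarith
  · have e : ((j : ℝ) + 1) / (n + 1) - (j + K + 1) / (n + K + 1) =
        -(K * (n - j) / ((n + K + 1) * (n + 1))) := by
      field_simp
      ring
    rw [e, abs_neg, abs_of_nonneg (by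
      apply div_nonneg _ (by positivity)
      apply mul_nonneg h0
      linarith)]
    have e2 : (K : ℝ) * ((j + K + 1) / (n + K + 1)) / (j + K + 1) = K / (n + K + 1) := by
      field_simp
    rw [e2, div_le_div_iff₀ (by positivity) (by positivity)]
    have h3 : (n : ℝ) - j ≤ n + 1 := by linarith
    have h4 : 0 ≤ (K : ℝ) * (n + K + 1) := by positivity
    nlinarith [mul_le_mul_of_nonneg_left h3 h4]

theorem norm_two {n j : ℕ} (hj : j < n) {μ m s ρ : ℝ} {K : ℕ} (hμ : 0 < μ) (hm : 1 ≤ m)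
    (h1 : mu n j ≤ ρ * μ) (h2 : |mu n j - μ| ≤ K * μ / m) (h3 : m ≤ s * ((j : ℝ) + 1)) (hρ : 0 ≤ ρ) (hs : 0 ≤ s) :
    lar n (fun x => (x / μ - 1) ^ 2) j ≤ (ρ ^ 2 * s + (K : ℝ) ^ 2) / m := by
  have e : (fun x : ℝ => (x / μ - 1) ^ 2) = fun x => (μ ^ 2)⁻¹ * (x - μ) ^ 2 := by
    funext x
    field_simp
  rw [e, lar_mul]
  have hj0 : (0 : ℝ) ≤ j := Nat.cast_nonneg j
  have k1 : mu n j ^ 2 ≤ (ρ * μ) ^ 2 := pow_le_pow_left₀ (mu_pos n j).le h1 2
  have k2 : (mu n j - μ) ^ 2 ≤ (K * μ / m) ^ 2 := by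
    rw [← sq_abs]
    exact pow_le_pow_left₀ (abs_nonneg _) h2 2
  have k3 : mu n j ^ 2 / ((j : ℝ) + 1) ≤ (ρ * μ) ^ 2 * s / m := by
    rw [div_le_div_iff₀ (by positivity) (by positivity)]
    calc mu n j ^ 2 * m ≤ (ρ * μ) ^ 2 * (s * ((j : ℝ) + 1)) := by gcongr
      _ = _ := by ring
  have k4 : (K * μ / m) ^ 2 ≤ (K : ℝ) ^ 2 * μ ^ 2 / m := by
    rw [div_pow, mul_pow]
    apply div_le_div_of_nonneg_left (by positivity) (by positivity)
    nlinarith
  have k5 := second_c hj μ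
  calc (μ ^ 2)⁻¹ * lar n (fun x => (x - μ) ^ 2) j
      ≤ (μ ^ 2)⁻¹ * ((ρ * μ) ^ 2 * s / m + (K : ℝ) ^ 2 * μ ^ 2 / m) := by
        apply mul_le_mul_of_nonneg_left _ (by positivity)
        linarith
    _ = _ := by
        field_simp

theorem norm_four {n j : ℕ} (hj : j < n) {μ m s ρ : ℝ} {K : ℕ} (hμ : 0 < μ) (hm : 1 ≤ m)
    (h1 : mu n j ≤ ρ * μ) (h2 : |mu n j - μ| ≤ K * μ / m) (h3 : m ≤ s * ((j : ℝ) + 1)) (hρ : 0 ≤ ρ) (hs : 0 ≤ s) :
    lar n (fun x => (x / μ - 1) ^ 4) j ≤ (72 * ρ ^ 4 * s ^ 2 + 8 * (K : ℝ) ^ 4) / m ^ 2 := by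
  have e : (fun x : ℝ => (x / μ - 1) ^ 4) = fun x => (μ ^ 4)⁻¹ * (x - μ) ^ 4 := by
    funext x
    field_simp
  rw [e, lar_mul]
  have hj0 : (0 : ℝ) ≤ j := Nat.cast_nonneg j
  have k1 : mu n j ^ 4 ≤ (ρ * μ) ^ 4 := pow_le_pow_left₀ (mu_pos n j).le h1 4
  have k2 : (mu n j - μ) ^ 4 ≤ (K * μ / m) ^ 4 := by
    have h4 : (mu n j - μ) ^ 4 = |mu n j - μ| ^ 4 := by
      rw [← Even.pow_abs (by decide : Even 4)]
    rw [h4]
    exact pow_le_pow_left₀ (abs_nonneg _) h2 4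
  have k3 : 72 * mu n j ^ 4 / ((j : ℝ) + 1) ^ 2 ≤ 72 * (ρ * μ) ^ 4 * s ^ 2 / m ^ 2 := by
    rw [div_le_div_iff₀ (by positivity) (by positivity)]
    calc 72 * mu n j ^ 4 * m ^ 2 ≤ 72 * (ρ * μ) ^ 4 * (s * ((j : ℝ) + 1)) ^ 2 := by gcongr
      _ = _ := by ring
  have k4 : (K * μ / m) ^ 4 ≤ (K : ℝ) ^ 4 * μ ^ 4 / m ^ 2 := by
    rw [div_pow, mul_pow]
    apply div_le_div_of_nonneg_left (by positivity) (by positivity)
    exact pow_le_pow_right₀ hm (by norm_num)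
  have k5 := fourth_c hj μ
  calc (μ ^ 4)⁻¹ * lar n (fun x => (x - μ) ^ 4) j
      ≤ (μ ^ 4)⁻¹ * (72 * (ρ * μ) ^ 4 * s ^ 2 / m ^ 2 + 8 * ((K : ℝ) ^ 4 * μ ^ 4 / m ^ 2)) := by
        apply mul_le_mul_of_nonneg_left _ (by positivity)
        linarith
    _ = _ := by
        field_simp

/-- concentration with weights -/
theorem core (K : ℕ) : ∃ C : ℝ, 0 < C ∧ ∀ n j : ℕ, j < n → 2 * K ≤ j + 1 →
    Integrable (fun x => Ph K (x / mu n j)) (bm n j) ∧
    Integrable (fun x => (x / mu n j - 1) ^ 2 * Ph K (x / mu n j)) (bm n j) ∧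
    Integrable (fun x => (x / mu n j - 1) ^ 4 * Ph K (x / mu n j)) (bm n j) ∧
    lar n (fun x => Ph K (x / mu n j)) j ≤ C ∧
    lar n (fun x => (x / mu n j - 1) ^ 2 * Ph K (x / mu n j)) j ≤ C / ((j : ℝ) + 1) ∧
    lar n (fun x => (x / mu n j - 1) ^ 4 * Ph K (x / mu n j)) j ≤ C / ((j : ℝ) + 1) ^ 2 := by
  refine ⟨2 ^ K * (1440 + 6 * (K : ℝ) ^ 2 + 136 * (K : ℝ) ^ 4), by positivity, ?_⟩
  intro n j hj hK
  have hμ := mu_pos n j
  have hj0 : (0 : ℝ) ≤ j := Nat.cast_nonneg j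
  have hm : (0 : ℝ) < j + 1 := by linarith
  have hm1 : (1 : ℝ) ≤ j + 1 := by linarith
  obtain ⟨a0, b0⟩ := Ph_bound hj hK (g := fun _ => 1) continuous_const (fun _ => zero_le_one)
  obtain ⟨a2, b2⟩ := Ph_bound hj hK (g := fun x => (x / mu n j - 1) ^ 2) (by fun_prop)
    (fun _ => by positivity)
  obtain ⟨a4, b4⟩ := Ph_bound hj hK (g := fun x => (x / mu n j - 1) ^ 4) (by fun_prop)
    (fun _ => by positivity)
  simp only [one_mul] at a0 b0
  refine ⟨a0, a2, a4, ?_, ?_, ?_⟩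
  · rw [lar_one (by omega), lar_one (by omega)] at b0
    refine b0.trans ?_
    apply mul_le_mul_of_nonneg_left _ (by positivity)
    have : (0 : ℝ) ≤ (K : ℝ) ^ 2 := by positivity
    have : (0 : ℝ) ≤ (K : ℝ) ^ 4 := by positivity
    linarith
  · refine b2.trans ?_
    obtain ⟨u1, u2⟩ := mu_up hj K hK
    have v1 := norm_two (n := n + K) (j := j + K) (by omega) hμ hm1 u1 u2 (s := 1) (by push_cast; linarith [(Nat.cast_nonneg K : (0 : ℝ) ≤ K)]) (by norm_num) (by norm_num)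
    obtain ⟨j', rfl⟩ : ∃ j', j = j' + K := ⟨j - K, by omega⟩
    obtain ⟨n', rfl⟩ : ∃ n', n = n' + K := ⟨n - K, by omega⟩
    obtain ⟨w1, w2⟩ := mu_down (n := n') (j := j') (by omega) K (by omega)
    have hK' : (K : ℝ) ≤ j' + 1 := by exact_mod_cast (by omega : K ≤ j' + 1)
    have v2 := norm_two (n := n') (j := j') (by omega) hμ hm1 (ρ := 1) (by rw [one_mul]; exact w1) w2 (s := 2)
      (by push_cast; linarith) (by norm_num) (by norm_num)
    rw [Nat.add_sub_cancel, Nat.add_sub_cancel]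
    calc 2 ^ K * (lar (n' + K + K) (fun x => (x / mu (n' + K) (j' + K) - 1) ^ 2) (j' + K + K) +
          lar n' (fun x => (x / mu (n' + K) (j' + K) - 1) ^ 2) j')
        ≤ 2 ^ K * ((2 ^ 2 * 1 + (K : ℝ) ^ 2) / (((j' + K : ℕ) : ℝ) + 1) +
          (1 ^ 2 * 2 + (K : ℝ) ^ 2) / (((j' + K : ℕ) : ℝ) + 1)) := by
          apply mul_le_mul_of_nonneg_left (add_le_add v1 v2) (by positivity)
      _ = 2 ^ K * (6 + 2 * (K : ℝ) ^ 2) / (((j' + K : ℕ) : ℝ) + 1) := by ring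
      _ ≤ _ := by
          apply div_le_div_of_nonneg_right _ hm.le
          apply mul_le_mul_of_nonneg_left _ (by positivity)
          have : (0 : ℝ) ≤ (K : ℝ) ^ 2 := by positivity
          have : (0 : ℝ) ≤ (K : ℝ) ^ 4 := by positivity
          linarith
  · refine b4.trans ?_
    obtain ⟨u1, u2⟩ := mu_up hj K hK
    have v1 := norm_four (n := n + K) (j := j + K) (by omega) hμ hm1 u1 u2 (s := 1) (by push_cast; linarith [(Nat.cast_nonneg K : (0 : ℝ) ≤ K)]) (by norm_num) (by norm_num)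
    obtain ⟨j', rfl⟩ : ∃ j', j = j' + K := ⟨j - K, by omega⟩
    obtain ⟨n', rfl⟩ : ∃ n', n = n' + K := ⟨n - K, by omega⟩
    obtain ⟨w1, w2⟩ := mu_down (n := n') (j := j') (by omega) K (by omega)
    have hK' : (K : ℝ) ≤ j' + 1 := by exact_mod_cast (by omega : K ≤ j' + 1)
    have v2 := norm_four (n := n') (j := j') (by omega) hμ hm1 (ρ := 1) (by rw [one_mul]; exact w1) w2 (s := 2)
      (by push_cast; linarith) (by norm_num) (by norm_num)
    rw [Nat.add_sub_cancel, Nat.add_sub_cancel]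
    calc 2 ^ K * (lar (n' + K + K) (fun x => (x / mu (n' + K) (j' + K) - 1) ^ 4) (j' + K + K) +
          lar n' (fun x => (x / mu (n' + K) (j' + K) - 1) ^ 4) j')
        ≤ 2 ^ K * ((72 * 2 ^ 4 * 1 ^ 2 + 8 * (K : ℝ) ^ 4) / (((j' + K : ℕ) : ℝ) + 1) ^ 2 +
          (72 * 1 ^ 4 * 2 ^ 2 + 8 * (K : ℝ) ^ 4) / (((j' + K : ℕ) : ℝ) + 1) ^ 2) := by
          apply mul_le_mul_of_nonneg_left (add_le_add v1 v2) (by positivity)
      _ = 2 ^ K * (1440 + 16 * (K : ℝ) ^ 4) / (((j' + K : ℕ) : ℝ) + 1) ^ 2 := by ring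
      _ ≤ _ := by
          apply div_le_div_of_nonneg_right _ (by positivity)
          apply mul_le_mul_of_nonneg_left _ (by positivity)
          have : (0 : ℝ) ≤ (K : ℝ) ^ 2 := by positivity
          have : (0 : ℝ) ≤ (K : ℝ) ^ 4 := by positivity
          linarith

end Pool.Agent.P8H93.FM
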