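import Pool.Agent.P8H93.FM.BetC

/-! # Radial singular symbols, one variable (package BET of project FM, helper93), part D: pointwise
bounds away from the origin -/

set_option autoImplicit false

namespace Pool.Agent.P8H93.FM

open MeasureTheory Complex Filter Topology Pool.Agent.P8H98.FM

/-! ### Weights -/

theorem rpow_le_Ph {K : ℕ} {y p : ℝ} (hy : 0 < y) (hp : |p| ≤ K) : y ^ p ≤ Ph K y := by
  unfold Ph
  obtain ⟨h1, h2⟩ := abs_le.1 hp
  rcases le_total 1 y with h | h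
  · have h3 : y ^ p ≤ y ^ (K : ℝ) := Real.rpow_le_rpow_of_exponent_le h h2
    rw [Real.rpow_natCast] at h3
    have : 0 < (y ^ K)⁻¹ := by positivity
    linarith
  · have h3 : y ^ p ≤ y ^ (-(K : ℝ)) := Real.rpow_le_rpow_of_exponent_ge hy h h1
    rw [Real.rpow_neg hy.le, Real.rpow_natCast] at h3
    have : 0 < y ^ K := by positivity
    linarith

theorem one_le_Ph {K : ℕ} {y : ℝ} (hy : 0 < y) : 1 ≤ Ph K y := by
  have h := rpow_le_Ph (K := K) (p := 0) hy (by simp)
  rwa [Real.rpow_zero] at h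

theorem Ph_mul {a b : ℕ} {y : ℝ} (hy : 0 < y) : Ph a y * Ph b y ≤ 4 * Ph (a + b) y := by
  have ha : (0 : ℝ) ≤ a := Nat.cast_nonneg a
  have hb : (0 : ℝ) ≤ b := Nat.cast_nonneg b
  have e : Ph a y * Ph b y = y ^ ((a : ℝ) + b) + y ^ ((a : ℝ) - b) + y ^ ((b : ℝ) - a) +
      y ^ (-(a : ℝ) - b) := by
    unfold Ph
    rw [Real.rpow_add hy, Real.rpow_sub hy, Real.rpow_sub hy, Real.rpow_sub hy, Real.rpow_neg hy.le,
      Real.rpow_natCast, Real.rpow_natCast]
    field_simp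
    ring
  rw [e]
  have hc : ((a + b : ℕ) : ℝ) = a + b := by push_cast; ring
  have h1 := rpow_le_Ph (K := a + b) (p := (a : ℝ) + b) hy (by
    rw [hc, abs_of_nonneg (by linarith)])
  have h2 := rpow_le_Ph (K := a + b) (p := (a : ℝ) - b) hy (by
    rw [hc, abs_le]; constructor <;> linarith)
  have h3 := rpow_le_Ph (K := a + b) (p := (b : ℝ) - a) hy (by
    rw [hc, abs_le]; constructor <;> linarith)
  have h4 := rpow_le_Ph (K := a + b) (p := -(a : ℝ) - b) hy (by
    rw [hc, abs_le]; constructor <;> linarith)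
  linarith

theorem Ph_mono {a b : ℕ} (hab : a ≤ b) {y : ℝ} (hy : 0 < y) : Ph a y ≤ 2 * Ph b y := by
  have hab' : (a : ℝ) ≤ b := by exact_mod_cast hab
  have ha : (0 : ℝ) ≤ a := Nat.cast_nonneg a
  have h1 := rpow_le_Ph (K := b) (p := (a : ℝ)) hy (by rw [abs_of_nonneg ha]; exact hab')
  have h2 := rpow_le_Ph (K := b) (p := -(a : ℝ)) hy (by rw [abs_neg, abs_of_nonneg ha]; exact hab')
  rw [Real.rpow_natCast] at h1
  rw [Real.rpow_neg hy.le, Real.rpow_natCast] at h2
  conv_lhs => unfold Ph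
  linarith

/-! ### Complex powers -/

/-- a number between `1` and `y` -/
def Btw (t y : ℝ) : Prop := (1 ≤ t ∧ t ≤ y) ∨ (y ≤ t ∧ t ≤ 1)

theorem btw_rpow {t y p : ℝ} (ht : 0 < t) (hy : 0 < y) (h : Btw t y) : t ^ p ≤ 1 + y ^ p := by
  have hy' : 0 < y ^ p := Real.rpow_pos_of_pos hy p
  rcases h with ⟨h1, h2⟩ | ⟨h1, h2⟩
  · rcases le_total 0 p with hp | hp
    · have := Real.rpow_le_rpow ht.le h2 hp
      linarith
    · have := Real.rpow_le_one_of_one_le_of_nonpos h1 hp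
      linarith
  · rcases le_total 0 p with hp | hp
    · have := Real.rpow_le_one ht.le h2 hp
      linarith
    · have := Real.rpow_le_rpow_of_nonpos hy h1 hp
      linarith

theorem btw_abs {t y : ℝ} (h : Btw t y) : |t - 1| ≤ |y - 1| := by
  rcases h with ⟨h1, h2⟩ | ⟨h1, h2⟩
  · rw [abs_of_nonneg (by linarith), abs_of_nonneg (by linarith)]
    linarith
  · rw [abs_of_nonpos (by linarith), abs_of_nonpos (by linarith)]
    linarith

theorem cpow_sub_one {t : ℝ} (ht : 0 < t) (q : ℂ) :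
    ‖(t : ℂ) ^ q - 1‖ ≤ ‖q‖ * (1 + t ^ (q.re - 1)) * |t - 1| := by
  have hpos : ∀ u ∈ Set.uIcc 1 t, 0 < u := fun u hu => lt_of_lt_of_le (lt_min zero_lt_one ht) hu.1
  have h1 : ∀ u ∈ Set.uIcc 1 t, HasDerivWithinAt (fun u : ℝ => (u : ℂ) ^ q) (q * (u : ℂ) ^ (q - 1))
      (Set.uIcc 1 t) u := by
    intro u hu
    have h2 : (u : ℂ) ∈ slitPlane := by
      rw [ofReal_mem_slitPlane]
      exact hpos u hu
    have h3 := ((hasDerivAt_id (u : ℂ)).cpow_const (c := q) h2).comp_ofReal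
    simp only [id_eq, mul_one] at h3
    exact h3.hasDerivWithinAt
  have h2 : ∀ u ∈ Set.uIcc 1 t, ‖q * (u : ℂ) ^ (q - 1)‖ ≤ ‖q‖ * (1 + t ^ (q.re - 1)) := by
    intro u hu
    rw [norm_mul, norm_cpow_eq_rpow_re_of_pos (hpos u hu), sub_re, one_re]
    apply mul_le_mul_of_nonneg_left _ (norm_nonneg _)
    apply btw_rpow (hpos u hu) ht
    rcases Set.mem_uIcc.1 hu with h | h
    · exact Or.inl h
    · exact Or.inr h
  have h3 := Convex.norm_image_sub_le_of_norm_hasDerivWithin_le h1 h2 (convex_uIcc 1 t)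
    Set.left_mem_uIcc Set.right_mem_uIcc
  simp only [ofReal_one, one_cpow, Real.norm_eq_abs] at h3
  exact h3

theorem sc_btw {δ x μ : ℝ} (hδ : 0 < δ) (hx : 0 < x) (hμ : 0 < μ) :
    0 < min (x / δ) 1 / min (μ / δ) 1 ∧ Btw (min (x / δ) 1 / min (μ / δ) 1) (x / μ) := by
  have h1 : 0 < x / δ := div_pos hx hδ
  have h2 : 0 < μ / δ := div_pos hμ hδ
  have h3 : 0 < min (x / δ) 1 := lt_min h1 zero_lt_one
  have h4 : 0 < min (μ / δ) 1 := lt_min h2 zero_lt_one
  refine ⟨div_pos h3 h4, ?_⟩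
  unfold Btw
  rw [one_le_div h4, div_le_div_iff₀ h4 hμ, div_le_div_iff₀ hμ h4, div_le_one h4]
  have e : x / δ * δ = x := div_mul_cancel₀ _ hδ.ne'
  have e' : μ / δ * δ = μ := div_mul_cancel₀ _ hδ.ne'
  generalize x / δ = X at *
  generalize μ / δ = U at *
  subst e e'
  rcases le_total X U with h | h
  · right
    refine ⟨?_, min_le_min_right 1 h⟩
    have h5 : X * min U 1 ≤ U * min X 1 := by
      rcases le_total U 1 with h6 | h6
      · rw [min_eq_left h6, min_eq_left (h.trans h6)]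
        linarith [mul_comm X U]
      · rw [min_eq_right h6]
        rcases le_total X 1 with h7 | h7
        · rw [min_eq_left h7]
          nlinarith
        · rw [min_eq_right h7]
          linarith
    nlinarith
  · left
    refine ⟨min_le_min_right 1 h, ?_⟩
    have h5 : U * min X 1 ≤ X * min U 1 := by
      rcases le_total X 1 with h6 | h6
      · rw [min_eq_left h6, min_eq_left (h.trans h6)]
        linarith [mul_comm X U]
      · rw [min_eq_right h6]
        rcases le_total U 1 with h7 | h7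
        · rw [min_eq_left h7]
          nlinarith
        · rw [min_eq_right h7]
          linarith
    nlinarith

theorem sc_ne {δ x : ℝ} (hδ : 0 < δ) (hx : 0 < x) (q : ℂ) : sc δ q x ≠ 0 := by
  unfold sc
  rw [Ne, cpow_eq_zero_iff, not_and_or]
  left
  exact_mod_cast (lt_min (div_pos hx hδ) zero_lt_one).ne'

theorem sc_norm {δ x : ℝ} (hδ : 0 < δ) (hx : 0 < x) (q : ℂ) :
    ‖sc δ q x‖ = (min (x / δ) 1) ^ q.re := by
  unfold sc
  rw [norm_cpow_eq_rpow_re_of_pos (lt_min (div_pos hx hδ) zero_lt_one)]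

/-- the pointwise bound -/
theorem sc_ratio {δ x μ : ℝ} (hδ : 0 < δ) (hx : 0 < x) (hμ : 0 < μ) {q : ℂ} {K : ℕ}
    (hK : |q.re - 1| ≤ K) :
    ‖sc δ q x / sc δ q μ - 1‖ ≤ 3 * ‖q‖ * (|x / μ - 1| * Ph K (x / μ)) := by
  obtain ⟨h1, h2⟩ := sc_btw hδ hx hμ
  have hy : 0 < x / μ := div_pos hx hμ
  have e : sc δ q x / sc δ q μ = ((min (x / δ) 1 / min (μ / δ) 1 : ℝ) : ℂ) ^ q := by
    unfold sc
    rw [ofReal_div, div_cpow_ofReal_nonneg (lt_min (div_pos hx hδ) zero_lt_one).le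
      (lt_min (div_pos hμ hδ) zero_lt_one).le]
  rw [e]
  refine (cpow_sub_one h1 q).trans ?_
  have h3 := btw_rpow (p := q.re - 1) h1 hy h2
  have h4 := rpow_le_Ph (K := K) hy hK
  have h5 := one_le_Ph (K := K) hy
  have h6 := btw_abs h2
  calc ‖q‖ * (1 + (min (x / δ) 1 / min (μ / δ) 1) ^ (q.re - 1)) * |min (x / δ) 1 / min (μ / δ) 1 - 1|
      ≤ ‖q‖ * (3 * Ph K (x / μ)) * |x / μ - 1| := by
        apply mul_le_mul _ h6 (abs_nonneg _) (by positivity)
        apply mul_le_mul_of_nonneg_left _ (norm_nonneg _)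
        linarith
    _ = _ := by ring

end Pool.Agent.P8H93.FM
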