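import Pool.Agent.P8H93.FM.BetD

/-! # Radial singular symbols, one variable (package BET of project FM, helper93), part E: the
averages away from the origin -/

set_option autoImplicit false

namespace Pool.Agent.P8H93.FM

open MeasureTheory Complex Filter Topology Pool.Agent.P8H98.FM

theorem sc_meas (δ : ℝ) (q : ℂ) : Measurable (sc δ q) := by
  unfold sc
  fun_prop

theorem sc_int {n j : ℕ} {δ : ℝ} (hδ : 0 < δ) {q : ℂ} (hq : -1 < q.re) :
    Integrable (sc δ q) (bm n j) := by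
  have hj0 : (0 : ℝ) ≤ j := Nat.cast_nonneg j
  apply bm_integrable (a := min q.re 0) (C := δ ^ (-q.re) + 1)
  · exact (sc_meas δ q).aestronglyMeasurable
  · rcases le_total q.re 0 with h | h
    · rw [min_eq_left h]; linarith
    · rw [min_eq_right h]; linarith
  · intro x hx
    rw [sc_norm hδ hx.1]
    have hd : 0 < δ ^ (-q.re) := Real.rpow_pos_of_pos hδ _
    rcases le_total q.re 0 with h | h
    · rw [min_eq_left h]
      have hxq : 1 ≤ x ^ q.re := Real.one_le_rpow_of_pos_of_le_one_of_nonpos hx.1 hx.2.le h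
      rcases le_total (x / δ) 1 with h1 | h1
      · rw [min_eq_left h1, Real.div_rpow hx.1.le hδ.le, div_eq_mul_inv, ← Real.rpow_neg hδ.le, mul_comm]
        apply mul_le_mul_of_nonneg_right _ (by linarith)
        linarith
      · rw [min_eq_right h1, Real.one_rpow]
        nlinarith
    · rw [min_eq_right h, Real.rpow_zero, mul_one]
      have : (min (x / δ) 1) ^ q.re ≤ 1 := Real.rpow_le_one (le_min (div_pos hx.1 hδ).le zero_le_one)
        (min_le_right _ _) h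
      linarith

/-- the first absolute moment -/
theorem first {n j : ℕ} {C : ℝ} {K : ℕ}
    (h0 : Integrable (fun x => Ph K (x / mu n j)) (bm n j))
    (h2 : Integrable (fun x => (x / mu n j - 1) ^ 2 * Ph K (x / mu n j)) (bm n j))
    (b0 : lar n (fun x => Ph K (x / mu n j)) j ≤ C)
    (b2 : lar n (fun x => (x / mu n j - 1) ^ 2 * Ph K (x / mu n j)) j ≤ C / ((j : ℝ) + 1)) :
    Integrable (fun x => |x / mu n j - 1| * Ph K (x / mu n j)) (bm n j) ∧
    lar n (fun x => |x / mu n j - 1| * Ph K (x / mu n j)) j ≤ C / √((j : ℝ) + 1) := by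
  have hj0 : (0 : ℝ) ≤ j := Nat.cast_nonneg j
  have hm : (0 : ℝ) < (j : ℝ) + 1 := by linarith
  have hs : 0 < √((j : ℝ) + 1) := Real.sqrt_pos.2 hm
  have hs2 : √((j : ℝ) + 1) * √((j : ℝ) + 1) = (j : ℝ) + 1 := Real.mul_self_sqrt hm.le
  have hμ := mu_pos n j
  obtain ⟨s, hsd⟩ : ∃ s, s = √((j : ℝ) + 1) := ⟨_, rfl⟩
  rw [← hsd] at hs hs2 ⊢
  have i1 : Integrable (fun x => s / 2 * ((x / mu n j - 1) ^ 2 * Ph K (x / mu n j)) +
      (2 * s)⁻¹ * Ph K (x / mu n j)) (bm n j) := (h2.const_mul _).add (h0.const_mul _)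
  have hb : ∀ x ∈ Set.Ioo (0 : ℝ) 1, |x / mu n j - 1| * Ph K (x / mu n j) ≤
      s / 2 * ((x / mu n j - 1) ^ 2 * Ph K (x / mu n j)) + (2 * s)⁻¹ * Ph K (x / mu n j) := by
    intro x hx
    have hP := Ph_pos K (div_pos hx.1 hμ)
    have h3 : |x / mu n j - 1| ≤ s / 2 * (x / mu n j - 1) ^ 2 + (2 * s)⁻¹ := by
      rw [← sq_abs (x / mu n j - 1)]
      generalize |x / mu n j - 1| = t
      have : 0 ≤ (s * t - 1) ^ 2 * (2 * s)⁻¹ := by positivity
      have e : (s * t - 1) ^ 2 * (2 * s)⁻¹ = s / 2 * t ^ 2 + (2 * s)⁻¹ - t := by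
        field_simp
        ring
      linarith
    calc |x / mu n j - 1| * Ph K (x / mu n j) ≤ (s / 2 * (x / mu n j - 1) ^ 2 + (2 * s)⁻¹) * Ph K (x / mu n j) :=
          mul_le_mul_of_nonneg_right h3 hP.le
      _ = _ := by ring
  constructor
  · refine Integrable.mono' i1 ?_ ?_
    · apply Measurable.aestronglyMeasurable
      unfold Ph
      fun_prop
    · filter_upwards [bm_mem n j] with x hx
      rw [Real.norm_of_nonneg (mul_nonneg (abs_nonneg _) (Ph_pos K (div_pos hx.1 hμ)).le)]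
      exact hb x hx
  · refine (lar_mono i1 (fun x hx => mul_nonneg (abs_nonneg _) (Ph_pos K (div_pos hx.1 hμ)).le) hb).trans ?_
    rw [lar_eq, integral_add (h2.const_mul _) (h0.const_mul _), ← lar_eq, ← lar_eq, lar_mul, lar_mul]
    calc s / 2 * lar n (fun x => (x / mu n j - 1) ^ 2 * Ph K (x / mu n j)) j +
          (2 * s)⁻¹ * lar n (fun x => Ph K (x / mu n j)) j
        ≤ s / 2 * (C / ((j : ℝ) + 1)) + (2 * s)⁻¹ * C := by gcongr
      _ = C / s := by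
          rw [← hs2]
          field_simp
          ring

/-- regime of large `j` -/
theorem big_j (q : ℂ) (hq : -1 < q.re) : ∃ (K M : ℕ) (C : ℝ), 0 < C ∧ 1 ≤ M ∧
    ∀ δ : ℝ, 0 < δ → ∀ n j : ℕ, j < n → M ≤ j + 1 →
    lam n (sc δ q) j ≠ 0 ∧ ‖sc δ q (mu n j)‖ / 2 ≤ ‖lam n (sc δ q) j‖ ∧
    ∀ x ∈ Set.Ioo (0 : ℝ) 1, ‖sc δ q x / lam n (sc δ q) j - 1‖ ≤
      C * ((|x / mu n j - 1| + 1 / √((j : ℝ) + 1)) * Ph K (x / mu n j)) := by
  obtain ⟨K, hK⟩ := exists_nat_ge |q.re - 1|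
  obtain ⟨C, hC, hcore⟩ := core K
  obtain ⟨M, hM⟩ := exists_nat_ge (max (2 * K + 1) ((6 * ‖q‖ * C + 1) ^ 2) : ℝ)
  refine ⟨K, M, 6 * ‖q‖ * (1 + C) + 1, by positivity, ?_, ?_⟩
  · have h1 : (1 : ℝ) ≤ M := by
      have := (le_max_left _ _).trans hM
      have h0 : (0 : ℝ) ≤ K := Nat.cast_nonneg K
      linarith
    exact_mod_cast h1
  intro δ hδ n j hj hMj
  have hj0 : (0 : ℝ) ≤ j := Nat.cast_nonneg j
  have hm : (0 : ℝ) < (j : ℝ) + 1 := by linarith
  have hs : 0 < √((j : ℝ) + 1) := Real.sqrt_pos.2 hm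
  have hMj' : (M : ℝ) ≤ (j : ℝ) + 1 := by exact_mod_cast hMj
  have hKj : 2 * K ≤ j + 1 := by
    have h1 := ((le_max_left _ _).trans hM).trans hMj'
    have h2 : (2 : ℝ) * K ≤ j + 1 := by linarith
    exact_mod_cast h2
  have hsq : 6 * ‖q‖ * C + 1 ≤ √((j : ℝ) + 1) := by
    apply Real.le_sqrt_of_sq_le
    exact ((le_max_right _ _).trans hM).trans hMj'
  obtain ⟨i0, i2, -, b0, b2, -⟩ := hcore n j hj hKj
  obtain ⟨i1, b1⟩ := first i0 i2 b0 b2
  have hμ := mu_pos n j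
  have hprob := bm_prob hj
  obtain ⟨S, hS⟩ : ∃ S, S = sc δ q (mu n j) := ⟨_, rfl⟩
  have hS0 : S ≠ 0 := by rw [hS]; exact sc_ne hδ hμ q
  have hl : lam n (sc δ q) j / S - 1 = ∫ x, (sc δ q x / S - 1) ∂(bm n j) := by
    rw [integral_sub ((sc_int hδ hq).div_const S) (integrable_const 1), integral_div, ← lam_eq]
    simp
  have hg : ∀ x ∈ Set.Ioo (0 : ℝ) 1, ‖sc δ q x / S - 1‖ ≤ 3 * ‖q‖ * (|x / mu n j - 1| * Ph K (x / mu n j)) := by
    intro x hx
    rw [hS]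
    exact sc_ratio hδ hx.1 hμ hK
  have hl2 : ‖lam n (sc δ q) j / S - 1‖ ≤ 3 * ‖q‖ * C / √((j : ℝ) + 1) := by
    rw [hl]
    refine (norm_integral_le_integral_norm _).trans ?_
    rw [← lar_eq]
    refine (lar_mono (i1.const_mul (3 * ‖q‖)) (fun x _ => norm_nonneg _) hg).trans ?_
    rw [lar_mul]
    calc 3 * ‖q‖ * lar n (fun x => |x / mu n j - 1| * Ph K (x / mu n j)) j
        ≤ 3 * ‖q‖ * (C / √((j : ℝ) + 1)) := mul_le_mul_of_nonneg_left b1 (by positivity)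
      _ = _ := by ring
  have hhalf : 3 * ‖q‖ * C / √((j : ℝ) + 1) ≤ 1 / 2 := by
    rw [div_le_iff₀ hs]
    linarith
  obtain ⟨r, hr⟩ : ∃ r, r = lam n (sc δ q) j / S := ⟨_, rfl⟩
  rw [← hr] at hl2
  have hr1 : 1 / 2 ≤ ‖r‖ := by
    have h3 : ‖(1 : ℂ)‖ ≤ ‖r‖ + ‖r - 1‖ := by
      have : (1 : ℂ) = r - (r - 1) := by ring
      calc ‖(1 : ℂ)‖ = ‖r - (r - 1)‖ := by rw [← this]
        _ ≤ _ := norm_sub_le _ _
    rw [norm_one] at h3
    linarith
  have hr0 : r ≠ 0 := by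
    intro h
    rw [h, norm_zero] at hr1
    norm_num at hr1
  have hlr : lam n (sc δ q) j = r * S := by rw [hr, div_mul_cancel₀ _ hS0]
  refine ⟨?_, ?_, ?_⟩
  · rw [hlr]
    exact mul_ne_zero hr0 hS0
  · rw [hlr, norm_mul, ← hS]
    have := norm_nonneg S
    nlinarith
  · intro x hx
    have hy : 0 < x / mu n j := div_pos hx.1 hμ
    have hP := one_le_Ph (K := K) hy
    have e : sc δ q x / lam n (sc δ q) j - 1 = ((sc δ q x / S - 1) - (r - 1)) / r := by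
      rw [hlr]
      field_simp
      ring
    rw [e, norm_div, div_le_iff₀ (by linarith)]
    have h4 : ‖sc δ q x / S - 1 - (r - 1)‖ ≤ 3 * ‖q‖ * (|x / mu n j - 1| * Ph K (x / mu n j)) +
        3 * ‖q‖ * C / √((j : ℝ) + 1) := (norm_sub_le _ _).trans (add_le_add (hg x hx) hl2)
    refine h4.trans ?_
    have hA : 0 ≤ |x / mu n j - 1| := abs_nonneg _
    have hB : 0 ≤ 1 / √((j : ℝ) + 1) := by positivity
    have h5 : 3 * ‖q‖ * C / √((j : ℝ) + 1) ≤ 3 * ‖q‖ * C * (1 / √((j : ℝ) + 1)) * Ph K (x / mu n j) := by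
      rw [mul_one_div]
      exact le_mul_of_one_le_right (by positivity) hP
    have h6 : 0 ≤ (|x / mu n j - 1| + 1 / √((j : ℝ) + 1)) * Ph K (x / mu n j) := by positivity
    have hq0 := norm_nonneg q
    calc 3 * ‖q‖ * (|x / mu n j - 1| * Ph K (x / mu n j)) + 3 * ‖q‖ * C / √((j : ℝ) + 1)
        ≤ 3 * ‖q‖ * (|x / mu n j - 1| * Ph K (x / mu n j)) +
          3 * ‖q‖ * C * (1 / √((j : ℝ) + 1)) * Ph K (x / mu n j) := by linarith
      _ ≤ (3 * ‖q‖ * (1 + C)) * ((|x / mu n j - 1| + 1 / √((j : ℝ) + 1)) * Ph K (x / mu n j)) := by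
          have h7 : 0 ≤ 3 * ‖q‖ * C * (|x / mu n j - 1| * Ph K (x / mu n j)) := by positivity
          have h8 : 0 ≤ 3 * ‖q‖ * ((1 / √((j : ℝ) + 1)) * Ph K (x / mu n j)) := by positivity
          nlinarith
      _ ≤ (6 * ‖q‖ * (1 + C) + 1) * ((|x / mu n j - 1| + 1 / √((j : ℝ) + 1)) * Ph K (x / mu n j)) * (1 / 2) := by
          nlinarith
      _ ≤ _ := by
          apply mul_le_mul_of_nonneg_left hr1
          positivity

end Pool.Agent.P8H93.FM
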