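import Pool.Agent.P8H93.FM.BetE

/-! # Radial singular symbols, one variable (package BET of project FM, helper93), part F: the
averages close to the origin -/

set_option autoImplicit false

namespace Pool.Agent.P8H93.FM

open MeasureTheory Complex Filter Topology Pool.Agent.P8H98.FM

theorem ratio_one (c : ℝ) : Tendsto (fun r : ℕ => ((r : ℝ) + c) / r) atTop (𝓝 1) := by
  have h1 : Tendsto (fun r : ℕ => 1 + c / (r : ℝ)) atTop (𝓝 (1 + 0)) :=
    tendsto_const_nhds.add (tendsto_const_div_atTop_nhds_zero_nat c)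
  rw [add_zero] at h1
  refine h1.congr' ?_
  filter_upwards [eventually_gt_atTop 0] with r hr
  have : (r : ℝ) ≠ 0 := by exact_mod_cast hr.ne'
  field_simp

theorem choose_asym (j : ℕ) : Tendsto (fun r : ℕ => (((r + (j + 1) : ℕ) : ℝ) *
    (((r + (j + 1) - 1).choose j : ℕ) : ℝ)) / (r : ℝ) ^ (j + 1)) atTop (𝓝 (1 / (j.factorial : ℝ))) := by
  have h1 : Tendsto (fun r : ℕ => ∏ i ∈ Finset.range (j + 1), (((r : ℝ) + (1 + i)) / r)) atTop
      (𝓝 (∏ _i ∈ Finset.range (j + 1), (1 : ℝ))) :=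
    tendsto_finsetProd _ fun i _ => ratio_one (1 + i)
  rw [Finset.prod_const_one] at h1
  have h2 := h1.div_const (j.factorial : ℝ)
  refine h2.congr fun r => ?_
  rw [Finset.prod_div_distrib, Finset.prod_const, Finset.card_range]
  have h3 : (∏ i ∈ Finset.range (j + 1), ((r : ℝ) + (1 + i))) = (((r + 1).ascFactorial (j + 1) : ℕ) : ℝ) := by
    rw [Nat.ascFactorial_eq_prod_range]
    push_cast
    apply Finset.prod_congr rfl
    intro i _
    ring
  have h4 : r.factorial * (r + 1).ascFactorial (j + 1) = (r + (j + 1)).factorial :=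
    Nat.factorial_mul_ascFactorial r (j + 1)
  have h5 : (r + j).choose j * j.factorial * r.factorial = (r + j).factorial := by
    have := Nat.choose_mul_factorial_mul_factorial (Nat.le_add_left j r)
    rwa [Nat.add_sub_cancel] at this
  have h6 : (r + 1).ascFactorial (j + 1) = (r + (j + 1)) * (r + (j + 1) - 1).choose j * j.factorial := by
    apply Nat.eq_of_mul_eq_mul_left r.factorial_pos
    rw [h4, show r + (j + 1) - 1 = r + j by omega, show r + (j + 1) = r + j + 1 by ring,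
      Nat.factorial_succ, ← h5]
    ring
  rw [h3, h6]
  have h7 : (j.factorial : ℝ) ≠ 0 := by exact_mod_cast j.factorial_ne_zero
  push_cast
  field_simp

/-- asymptotics of the moments for fixed `j` -/
theorem mom_tendsto (j : ℕ) (a : ℂ) (ha : -((j : ℝ) + 1) < a.re) :
    Tendsto (fun n : ℕ => (n : ℝ) ^ a.re * ‖lam n (fun x => (x : ℂ) ^ a) j‖) atTop
      (𝓝 (‖Gamma (j + 1 + a)‖ / (j.factorial : ℝ))) := by
  rw [← tendsto_add_atTop_iff_nat (j + 1)]
  have hs : 0 < ((j : ℂ) + 1 + a).re := by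
    simp
    linarith
  have h1 := choose_asym j
  have h2 := (GammaSeq_tendsto_Gamma ((j : ℂ) + 1 + a)).norm
  have h3 : Tendsto (fun r : ℕ => (((r : ℝ) + ((j : ℝ) + 1)) / r) ^ a.re) atTop (𝓝 (1 ^ a.re)) :=
    (ratio_one ((j : ℝ) + 1)).rpow_const (Or.inl one_ne_zero)
  rw [Real.one_rpow] at h3
  have h4 := (h3.mul (h1.mul h2))
  rw [one_mul, one_div_mul_eq_div] at h4
  refine h4.congr' ?_
  filter_upwards [eventually_gt_atTop 0] with r hr
  have hr0 : (0 : ℝ) < r := by exact_mod_cast hr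
  rw [lam_cpow, show r + (j + 1) - 1 - j = r by omega]
  have h5 := GammaSeq_eq_betaIntegral_of_re_pos hs r
  rw [h5, norm_mul, norm_natCast_cpow_of_pos hr, norm_mul, norm_mul]
  have e1 : ((j : ℂ) + 1 + a).re = (j : ℝ) + 1 + a.re := by simp
  rw [e1, Complex.norm_natCast, Complex.norm_natCast, Real.div_rpow (by positivity) hr0.le,
    Real.rpow_add hr0]
  have e2 : (r : ℝ) ^ ((j : ℝ) + 1) = (r : ℝ) ^ (j + 1) := by
    rw [← Real.rpow_natCast]
    congr 1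
    push_cast
    ring
  rw [e2]
  have e3 : ((r + (j + 1) : ℕ) : ℝ) = (r : ℝ) + ((j : ℝ) + 1) := by push_cast; ring
  rw [e3]
  have h6 : (r : ℝ) ^ a.re ≠ 0 := (Real.rpow_pos_of_pos hr0 _).ne'
  field_simp

theorem lam_real (n j : ℕ) (a : ℝ) : lam n (fun x => (x : ℂ) ^ (a : ℂ)) j =
    ((lar n (fun x => x ^ a) j : ℝ) : ℂ) := by
  rw [lam_eq, lar_eq]
  have h : ∫ x, (x : ℂ) ^ (a : ℂ) ∂(bm n j) = ∫ x, ((x ^ a : ℝ) : ℂ) ∂(bm n j) := by
    apply integral_congr_ae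
    filter_upwards [bm_mem n j] with x hx
    exact (ofReal_cpow hx.1.le a).symm
  rw [h]
  exact integral_complex_ofReal

theorem mom_upper (j : ℕ) (a : ℝ) (ha : -((j : ℝ) + 1) < a) : ∃ C : ℝ, 0 < C ∧ ∀ᶠ n : ℕ in atTop,
    lar n (fun x => x ^ a) j ≤ C * (n : ℝ) ^ (-a) := by
  have h := mom_tendsto j (a : ℂ) (by rwa [ofReal_re])
  rw [ofReal_re] at h
  obtain ⟨L, hL⟩ : ∃ L, L = ‖Gamma (j + 1 + (a : ℂ))‖ / (j.factorial : ℝ) := ⟨_, rfl⟩
  rw [← hL] at h
  have hL0 : 0 ≤ L := by rw [hL]; positivity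
  refine ⟨L + 1, by positivity, ?_⟩
  filter_upwards [h.eventually_lt_const (show L < L + 1 by linarith), eventually_gt_atTop 0] with n hn hn0
  have hn1 : (0 : ℝ) < n := by exact_mod_cast hn0
  rw [lam_real, Complex.norm_real, Real.norm_eq_abs] at hn
  rw [Real.rpow_neg hn1.le, ← div_eq_mul_inv, le_div_iff₀ (Real.rpow_pos_of_pos hn1 _), mul_comm]
  exact (mul_le_mul_of_nonneg_left (le_abs_self _) (Real.rpow_pos_of_pos hn1 _).le).trans hn.le

theorem mom_lower (j : ℕ) (a : ℂ) (ha : -((j : ℝ) + 1) < a.re) : ∃ c : ℝ, 0 < c ∧ ∀ᶠ n : ℕ in atTop,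
    c * (n : ℝ) ^ (-a.re) ≤ ‖lam n (fun x => (x : ℂ) ^ a) j‖ := by
  have h := mom_tendsto j a ha
  obtain ⟨L, hL⟩ : ∃ L, L = ‖Gamma (j + 1 + a)‖ / (j.factorial : ℝ) := ⟨_, rfl⟩
  rw [← hL] at h
  have hs : 0 < ((j : ℂ) + 1 + a).re := by
    simp
    linarith
  have hL0 : 0 < L := by
    rw [hL]
    apply div_pos (norm_pos_iff.2 (Gamma_ne_zero_of_re_pos hs))
    exact_mod_cast j.factorial_pos
  refine ⟨L / 2, by positivity, ?_⟩
  filter_upwards [h.eventually_const_lt (show L / 2 < L by linarith), eventually_gt_atTop 0] with n hn hn0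
  have hn1 : (0 : ℝ) < n := by exact_mod_cast hn0
  rw [Real.rpow_neg hn1.le, ← div_eq_mul_inv, div_le_iff₀ (Real.rpow_pos_of_pos hn1 _), mul_comm]
  exact hn.le

theorem rpow_integrable {n j : ℕ} {a : ℝ} (ha : -((j : ℝ) + 1) < a) :
    Integrable (fun x : ℝ => x ^ a) (bm n j) := by
  apply bm_integrable (a := a) (C := 1)
  · exact (measurable_id.pow_const a).aestronglyMeasurable
  · exact ha
  · intro x hx
    rw [Real.norm_of_nonneg (Real.rpow_nonneg hx.1.le _), one_mul]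

theorem cpow_integrable {n j : ℕ} {a : ℂ} (ha : -((j : ℝ) + 1) < a.re) :
    Integrable (fun x : ℝ => (x : ℂ) ^ a) (bm n j) := by
  apply bm_integrable (a := a.re) (C := 1)
  · exact (by fun_prop : Measurable fun x : ℝ => (x : ℂ) ^ a).aestronglyMeasurable
  · exact ha
  · intro x hx
    rw [norm_cpow_eq_rpow_re_of_pos hx.1, one_mul]

/-- lower bound for the averages, fixed `j` -/
theorem small_lower (δ : ℝ) (hδ : 0 < δ) (q : ℂ) (hq : -1 < q.re) (j : ℕ) :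
    ∃ c : ℝ, 0 < c ∧ ∀ᶠ n : ℕ in atTop, c * (n : ℝ) ^ (-q.re) ≤ ‖lam n (sc δ q) j‖ := by
  have hj0 : (0 : ℝ) ≤ j := Nat.cast_nonneg j
  obtain ⟨r, hr⟩ : ∃ r, r = |q.re| + 1 := ⟨_, rfl⟩
  have hr0 : 0 < r := by rw [hr]; positivity
  have hqj : -((j : ℝ) + 1) < q.re := by linarith
  obtain ⟨c, hc, hlow⟩ := mom_lower j q hqj
  obtain ⟨C, hC, hup⟩ := mom_upper j r (by linarith)
  have hdq : 0 < δ ^ (-q.re) := Real.rpow_pos_of_pos hδ _
  have hdr : 0 < δ ^ (-r) := Real.rpow_pos_of_pos hδ _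
  refine ⟨δ ^ (-q.re) * c / 2, by positivity, ?_⟩
  obtain ⟨N, hN⟩ := exists_nat_ge (2 * (2 * δ ^ (-r) * C) / (δ ^ (-q.re) * c))
  filter_upwards [hlow, hup, eventually_ge_atTop N, eventually_gt_atTop 0] with n h1 h2 h3 h4
  have hn1 : (1 : ℝ) ≤ n := by exact_mod_cast h4
  have hn0 : (0 : ℝ) < n := by linarith
  -- the difference
  have hpt : ∀ x ∈ Set.Ioo (0 : ℝ) 1, ‖sc δ q x - (δ : ℂ) ^ (-q) * (x : ℂ) ^ q‖ ≤
      2 * δ ^ (-r) * x ^ r := by
    intro x hx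
    have hδc : ((δ : ℝ) : ℂ) ≠ 0 := by exact_mod_cast hδ.ne'
    rcases lt_or_ge (x / δ) 1 with hx1 | hx1
    · have e : sc δ q x = (δ : ℂ) ^ (-q) * (x : ℂ) ^ q := by
        unfold sc
        rw [min_eq_left hx1.le, ofReal_div, div_cpow_ofReal_nonneg hx.1.le hδ.le, cpow_neg]
        field_simp
      rw [e, sub_self, norm_zero]
      have := hx.1
      positivity
    · have hxd : 0 < x / δ := div_pos hx.1 hδ
      have e1 : ‖sc δ q x‖ = 1 := by rw [sc_norm hδ hx.1, min_eq_right hx1, Real.one_rpow]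
      have e2 : ‖(δ : ℂ) ^ (-q) * (x : ℂ) ^ q‖ = (x / δ) ^ q.re := by
        rw [norm_mul, norm_cpow_eq_rpow_re_of_pos hδ, norm_cpow_eq_rpow_re_of_pos hx.1, neg_re,
          Real.rpow_neg hδ.le, Real.div_rpow hx.1.le hδ.le]
        field_simp
      have e3 : 2 * δ ^ (-r) * x ^ r = 2 * (x / δ) ^ r := by
        rw [Real.rpow_neg hδ.le, Real.div_rpow hx.1.le hδ.le]
        field_simp
      refine (norm_sub_le _ _).trans ?_
      rw [e1, e2, e3]
      have k1 : (1 : ℝ) ≤ (x / δ) ^ r := Real.one_le_rpow hx1 hr0.le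
      have k2 : (x / δ) ^ q.re ≤ (x / δ) ^ r := Real.rpow_le_rpow_of_exponent_le hx1 (by
        rw [hr]; linarith [le_abs_self q.re])
      linarith
  have hint : lam n (sc δ q) j - (δ : ℂ) ^ (-q) * lam n (fun x => (x : ℂ) ^ q) j =
      ∫ x, (sc δ q x - (δ : ℂ) ^ (-q) * (x : ℂ) ^ q) ∂(bm n j) := by
    rw [integral_sub (sc_int hδ hq) ((cpow_integrable hqj).const_mul _), integral_const_mul, lam_eq,
      lam_eq]
  have hdiff : ‖lam n (sc δ q) j - (δ : ℂ) ^ (-q) * lam n (fun x => (x : ℂ) ^ q) j‖ ≤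
      2 * δ ^ (-r) * (C * (n : ℝ) ^ (-r)) := by
    rw [hint]
    refine (norm_integral_le_integral_norm _).trans ?_
    rw [← lar_eq]
    refine (lar_mono ((rpow_integrable (a := r) (by linarith)).const_mul (2 * δ ^ (-r)))
      (fun x _ => norm_nonneg _) hpt).trans ?_
    rw [lar_mul]
    exact mul_le_mul_of_nonneg_left h2 (by positivity)
  have hnorm : ‖(δ : ℂ) ^ (-q) * lam n (fun x => (x : ℂ) ^ q) j‖ ≤ ‖lam n (sc δ q) j‖ +
      ‖lam n (sc δ q) j - (δ : ℂ) ^ (-q) * lam n (fun x => (x : ℂ) ^ q) j‖ := by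
    have e : (δ : ℂ) ^ (-q) * lam n (fun x => (x : ℂ) ^ q) j = lam n (sc δ q) j -
      (lam n (sc δ q) j - (δ : ℂ) ^ (-q) * lam n (fun x => (x : ℂ) ^ q) j) := by ring
    conv_lhs => rw [e]
    exact norm_sub_le _ _
  rw [norm_mul, norm_cpow_eq_rpow_re_of_pos hδ, neg_re] at hnorm
  have k1 : δ ^ (-q.re) * (c * (n : ℝ) ^ (-q.re)) ≤ δ ^ (-q.re) * ‖lam n (fun x => (x : ℂ) ^ q) j‖ :=
    mul_le_mul_of_nonneg_left h1 hdq.le
  have hnq : 0 < (n : ℝ) ^ (-q.re) := Real.rpow_pos_of_pos hn0 _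
  have k2 : (n : ℝ) ^ (-r) ≤ (n : ℝ) ^ (-q.re) / n := by
    rw [← Real.rpow_sub_one hn0.ne']
    apply Real.rpow_le_rpow_of_exponent_le hn1
    rw [hr]
    linarith [le_abs_self q.re]
  have k3 : 2 * δ ^ (-r) * (C * (n : ℝ) ^ (-r)) ≤ δ ^ (-q.re) * c / 2 * (n : ℝ) ^ (-q.re) := by
    have hNn : 2 * (2 * δ ^ (-r) * C) / (δ ^ (-q.re) * c) ≤ n := hN.trans (by exact_mod_cast h3)
    rw [div_le_iff₀ (by positivity)] at hNn
    calc 2 * δ ^ (-r) * (C * (n : ℝ) ^ (-r)) ≤ 2 * δ ^ (-r) * (C * ((n : ℝ) ^ (-q.re) / n)) := by gcongr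
      _ = (2 * δ ^ (-r) * C) / n * (n : ℝ) ^ (-q.re) := by ring
      _ ≤ δ ^ (-q.re) * c / 2 * (n : ℝ) ^ (-q.re) := by
          apply mul_le_mul_of_nonneg_right _ hnq.le
          rw [div_le_iff₀ hn0]
          linarith
  calc δ ^ (-q.re) * c / 2 * (n : ℝ) ^ (-q.re)
      = δ ^ (-q.re) * (c * (n : ℝ) ^ (-q.re)) - δ ^ (-q.re) * c / 2 * (n : ℝ) ^ (-q.re) := by ring
    _ ≤ ‖lam n (sc δ q) j‖ := by linarith

/-- weighted second moments of the averages, fixed `j` -/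
theorem small_upper (δ : ℝ) (hδ : 0 < δ) (q : ℂ) (κ : ℝ) (hq : -1 < q.re)
    (hκ : 0 < κ) (h2 : -1 < 2 * q.re + κ) (j : ℕ) : ∃ C : ℝ, 0 < C ∧ ∀ᶠ n : ℕ in atTop,
    Integrable (fun x => ‖sc δ q x / lam n (sc δ q) j‖ ^ 2 * x ^ κ) (bm n j) ∧
    lar n (fun x => ‖sc δ q x / lam n (sc δ q) j‖ ^ 2 * x ^ κ) j ≤ C * (n : ℝ) ^ (-κ) := by
  have hj0 : (0 : ℝ) ≤ j := Nat.cast_nonneg j
  obtain ⟨c, hc, hlow⟩ := small_lower δ hδ q hq j
  obtain ⟨C1, hC1, hup1⟩ := mom_upper j (2 * q.re + κ) (by linarith)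
  obtain ⟨C2, hC2, hup2⟩ := mom_upper j κ (by linarith)
  have hdq : 0 < δ ^ (-(2 * q.re)) := Real.rpow_pos_of_pos hδ _
  obtain ⟨ε, hε⟩ : ∃ ε : ℝ, ε = if q.re < 0 then 1 else 0 := ⟨_, rfl⟩
  have hε0 : 0 ≤ ε := by rw [hε]; split_ifs <;> norm_num
  have hε1 : ε ≤ 1 := by rw [hε]; split_ifs <;> norm_num
  refine ⟨(c ^ 2)⁻¹ * (δ ^ (-(2 * q.re)) * C1 + C2), by positivity, ?_⟩
  filter_upwards [hlow, hup1, hup2, eventually_gt_atTop 0] with n h1 h3 h4 h5
  have hn1 : (1 : ℝ) ≤ n := by exact_mod_cast h5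
  have hn0 : (0 : ℝ) < n := by linarith
  obtain ⟨l, hl⟩ : ∃ l, l = lam n (sc δ q) j := ⟨_, rfl⟩
  rw [← hl] at h1 ⊢
  have hnq : 0 < (n : ℝ) ^ (-q.re) := Real.rpow_pos_of_pos hn0 _
  have hl0 : 0 < ‖l‖ := lt_of_lt_of_le (by positivity) h1
  have hpt : ∀ x ∈ Set.Ioo (0 : ℝ) 1, ‖sc δ q x / l‖ ^ 2 * x ^ κ ≤
      (‖l‖ ^ 2)⁻¹ * (δ ^ (-(2 * q.re)) * x ^ (2 * q.re + κ) + ε * x ^ κ) := by
    intro x hx
    have hxd : 0 < x / δ := div_pos hx.1 hδ
    have hxk : 0 < x ^ κ := Real.rpow_pos_of_pos hx.1 _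
    rw [norm_div, div_pow, div_eq_inv_mul, mul_assoc]
    apply mul_le_mul_of_nonneg_left _ (by positivity)
    have e1 : ‖sc δ q x‖ ^ 2 = (min (x / δ) 1) ^ (2 * q.re) := by
      rw [sc_norm hδ hx.1, ← Real.rpow_natCast, ← Real.rpow_mul (le_min hxd.le zero_le_one)]
      congr 1
      push_cast
      ring
    have e2 : δ ^ (-(2 * q.re)) * x ^ (2 * q.re + κ) = (x / δ) ^ (2 * q.re) * x ^ κ := by
      rw [Real.rpow_neg hδ.le, Real.div_rpow hx.1.le hδ.le, Real.rpow_add hx.1]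
      field_simp
    rw [e1, e2, ← add_mul]
    apply mul_le_mul_of_nonneg_right _ hxk.le
    have hpos : 0 < (x / δ) ^ (2 * q.re) := Real.rpow_pos_of_pos hxd _
    rcases le_total (x / δ) 1 with h | h
    · rw [min_eq_left h]
      linarith
    · rw [min_eq_right h, Real.one_rpow, hε]
      split_ifs with hq0
      · linarith
      · have : 1 ≤ (x / δ) ^ (2 * q.re) := Real.one_le_rpow h (by linarith)
        linarith
  have i1 : Integrable (fun x : ℝ => δ ^ (-(2 * q.re)) * x ^ (2 * q.re + κ)) (bm n j) :=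
    (rpow_integrable (by linarith)).const_mul _
  have i2 : Integrable (fun x : ℝ => ε * x ^ κ) (bm n j) := (rpow_integrable (by linarith)).const_mul _
  have i3 : Integrable (fun x : ℝ => (‖l‖ ^ 2)⁻¹ * (δ ^ (-(2 * q.re)) * x ^ (2 * q.re + κ) + ε * x ^ κ))
      (bm n j) := (i1.add i2).const_mul _
  have hnn : ∀ x ∈ Set.Ioo (0 : ℝ) 1, 0 ≤ ‖sc δ q x / l‖ ^ 2 * x ^ κ := by
    intro x hx
    have := Real.rpow_pos_of_pos hx.1 κ
    positivity
  constructor
  · refine Integrable.mono' i3 ?_ ?_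
    · apply Measurable.aestronglyMeasurable
      exact (((sc_meas δ q).div_const l).norm.pow_const 2).mul (measurable_id.pow_const κ)
    · filter_upwards [bm_mem n j] with x hx
      rw [Real.norm_of_nonneg (hnn x hx)]
      exact hpt x hx
  · refine (lar_mono i3 hnn hpt).trans ?_
    rw [lar_mul, lar_eq, integral_add i1 i2, ← lar_eq, ← lar_eq, lar_mul, lar_mul]
    have hk : (n : ℝ) ^ (-κ) * (n : ℝ) ^ κ = 1 := by
      rw [← Real.rpow_add hn0, neg_add_cancel, Real.rpow_zero]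
    have hnk : 0 < (n : ℝ) ^ (-κ) := Real.rpow_pos_of_pos hn0 _
    have hinv : (‖l‖ ^ 2)⁻¹ ≤ (c ^ 2)⁻¹ * (n : ℝ) ^ (2 * q.re) := by
      have k1 : (c * (n : ℝ) ^ (-q.re)) ^ 2 ≤ ‖l‖ ^ 2 := pow_le_pow_left₀ (by positivity) h1 2
      have k2 : (c * (n : ℝ) ^ (-q.re)) ^ 2 = c ^ 2 * (n : ℝ) ^ (-(2 * q.re)) := by
        rw [mul_pow]
        congr 1
        rw [← Real.rpow_natCast, ← Real.rpow_mul hn0.le]
        congr 1
        push_cast
        ring
      rw [k2] at k1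
      calc (‖l‖ ^ 2)⁻¹ ≤ (c ^ 2 * (n : ℝ) ^ (-(2 * q.re)))⁻¹ := inv_anti₀ (by positivity) k1
        _ = _ := by
            rw [mul_inv, Real.rpow_neg hn0.le, inv_inv]
    calc (‖l‖ ^ 2)⁻¹ * (δ ^ (-(2 * q.re)) * lar n (fun x => x ^ (2 * q.re + κ)) j +
          ε * lar n (fun x => x ^ κ) j)
        ≤ ((c ^ 2)⁻¹ * (n : ℝ) ^ (2 * q.re)) * (δ ^ (-(2 * q.re)) * (C1 * (n : ℝ) ^ (-(2 * q.re + κ))) +
          ε * (C2 * (n : ℝ) ^ (-κ))) := by
          apply mul_le_mul hinv _ _ (by positivity)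
          · gcongr
          · apply add_nonneg
            · apply mul_nonneg hdq.le
              rw [lar_eq]
              apply integral_nonneg_of_ae
              filter_upwards [bm_mem n j] with x hx using Real.rpow_nonneg hx.1.le _
            · apply mul_nonneg hε0
              rw [lar_eq]
              apply integral_nonneg_of_ae
              filter_upwards [bm_mem n j] with x hx using Real.rpow_nonneg hx.1.le _
      _ = (c ^ 2)⁻¹ * (δ ^ (-(2 * q.re)) * C1 * ((n : ℝ) ^ (2 * q.re) * (n : ℝ) ^ (-(2 * q.re + κ))) +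
          ε * (n : ℝ) ^ (2 * q.re) * (C2 * (n : ℝ) ^ (-κ))) := by ring
      _ ≤ (c ^ 2)⁻¹ * (δ ^ (-(2 * q.re)) * C1 * (n : ℝ) ^ (-κ) + 1 * (C2 * (n : ℝ) ^ (-κ))) := by
          rw [← Real.rpow_add hn0, show 2 * q.re + -(2 * q.re + κ) = -κ by ring]
          apply mul_le_mul_of_nonneg_left _ (by positivity)
          apply add_le_add le_rfl
          apply mul_le_mul_of_nonneg_right _ (by positivity)
          rw [hε]
          split_ifs with hq0
          · rw [one_mul]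
            exact Real.rpow_le_one_of_one_le_of_nonpos hn1 (by linarith)
          · rw [zero_mul]
            exact zero_le_one
      _ = _ := by ring

end Pool.Agent.P8H93.FM
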