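import Pool.Agent.P8H98.FM.Stm

/-! # The regularised determinant (package LA of project FM, helper93) -/

set_option autoImplicit false

namespace Pool.Agent.P8H93.FM

open Matrix Complex Filter Topology MeasureTheory Pool.Agent.P8H98.FM

open scoped Matrix.Norms.Frobenius

variable {n : ℕ}

theorem deriv_zero (M : Matrix (Fin n) (Fin n) ℂ) :
    HasDerivAt (fun h : ℂ => (1 + h • M).det) M.trace 0 := by
  obtain ⟨P, hP⟩ : ∃ P : Polynomial ℂ, ∀ h : ℂ, (1 + h • M).det = 1 + M.trace * h + P.eval h * h ^ 2 :=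
    ⟨_, fun h => Matrix.det_one_add_smul h M⟩
  have e : (fun h : ℂ => (1 + h • M).det) = fun h => 1 + M.trace * h + P.eval h * h ^ 2 := funext hP
  rw [e]
  have h1 := (((hasDerivAt_id (0 : ℂ)).const_mul M.trace).const_add 1).add
    ((P.hasDerivAt 0).mul ((hasDerivAt_id (0 : ℂ)).pow 2))
  refine (h1.congr_deriv ?_).congr_of_eventuallyEq (Eventually.of_forall fun h => ?_)
  · simp
  · simp

theorem deriv_det (K : Matrix (Fin n) (Fin n) ℂ) (t : ℝ) (hu : IsUnit (1 + (t : ℂ) • K)) :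
    HasDerivAt (fun u : ℝ => (1 + (u : ℂ) • K).det)
      ((1 + (t : ℂ) • K).det * ((1 + (t : ℂ) • K)⁻¹ * K).trace) t := by
  have hdet : IsUnit (1 + (t : ℂ) • K).det := (Matrix.isUnit_iff_isUnit_det _).1 hu
  have e : (fun u : ℝ => (1 + (u : ℂ) • K).det) = fun u : ℝ => (1 + (t : ℂ) • K).det *
      (1 + ((u : ℂ) - t) • ((1 + (t : ℂ) • K)⁻¹ * K)).det := by
    funext u
    rw [← Matrix.det_mul, mul_add, mul_one, Matrix.mul_smul, Matrix.mul_nonsing_inv_cancel_left _ _ hdet,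
      sub_smul]
    congr 1
    abel
  rw [e]
  have h1 : HasDerivAt (fun u : ℝ => (u : ℂ) - t) 1 t := by
    have := (hasDerivAt_id t).ofReal_comp.sub_const (t : ℂ)
    simpa using this
  have h2 := (deriv_zero ((1 + (t : ℂ) • K)⁻¹ * K))
  have h3 : HasDerivAt (fun u : ℝ => (1 + ((u : ℂ) - t) • ((1 + (t : ℂ) • K)⁻¹ * K)).det)
      (((1 + (t : ℂ) • K)⁻¹ * K).trace * 1) t := by
    have h4 : HasDerivAt (fun h : ℂ => (1 + h • ((1 + (t : ℂ) • K)⁻¹ * K)).det)
        ((1 + (t : ℂ) • K)⁻¹ * K).trace ((t : ℂ) - t) := by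
      rw [sub_self]; exact h2
    exact h4.comp t h1
  rw [mul_one] at h3
  exact h3.const_mul _

theorem frob_sq (A : Matrix (Fin n) (Fin n) ℂ) : ‖A‖ ^ 2 = ∑ i, ∑ j, ‖A i j‖ ^ 2 := by
  rw [Matrix.frobenius_norm_def]
  have h0 : 0 ≤ ∑ i, ∑ j, ‖A i j‖ ^ (2 : ℝ) := Finset.sum_nonneg fun i _ => Finset.sum_nonneg fun j _ =>
    Real.rpow_nonneg (norm_nonneg _) _
  rw [← Real.rpow_natCast, ← Real.rpow_mul h0]
  norm_num

theorem trace_le (A B : Matrix (Fin n) (Fin n) ℂ) : ‖(A * B).trace‖ ≤ ‖A‖ * ‖B‖ := by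
  have h1 : ‖(A * B).trace‖ ≤ ∑ p : Fin n × Fin n, ‖A p.1 p.2‖ * ‖B p.2 p.1‖ := by
    rw [Matrix.trace]
    simp only [Matrix.diag_apply, Matrix.mul_apply]
    rw [← Finset.sum_product']
    refine (norm_sum_le _ _).trans ?_
    rw [← Finset.univ_product_univ]
    exact Finset.sum_le_sum fun p _ => (norm_mul _ _).le
  have h2 := Finset.sum_mul_sq_le_sq_mul_sq (Finset.univ : Finset (Fin n × Fin n))
    (fun p => ‖A p.1 p.2‖) (fun p => ‖B p.2 p.1‖)
  have e1 : ∑ p : Fin n × Fin n, ‖A p.1 p.2‖ ^ 2 = ‖A‖ ^ 2 := by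
    rw [frob_sq, ← Finset.univ_product_univ, Finset.sum_product]
  have e2 : ∑ p : Fin n × Fin n, ‖B p.2 p.1‖ ^ 2 = ‖B‖ ^ 2 := by
    rw [frob_sq, ← Finset.univ_product_univ, Finset.sum_product, Finset.sum_comm]
  rw [e1, e2, ← mul_pow] at h2
  exact h1.trans (abs_le_of_sq_le_sq' h2 (by positivity)).2

/-- package LA -/
theorem la : S_LA := by
  intro n K hK
  have hF : ‖K‖ ^ 2 = ∑ i, ∑ j, ‖K i j‖ ^ 2 := frob_sq K
  rw [← hF] at hK ⊢
  have hK2 : ‖K‖ ≤ 1 / 2 := by nlinarith [norm_nonneg K]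
  have hsm : ∀ u : ℝ, ‖(u : ℂ) • K‖ = |u| * ‖K‖ := fun u => by
    rw [norm_smul, Complex.norm_real, Real.norm_eq_abs]
  have hsm' : ∀ (u : ℝ) (B : Matrix (Fin n) (Fin n) ℂ), ‖(u : ℂ) • B‖ = |u| * ‖B‖ := fun u B => by
    rw [norm_smul, Complex.norm_real, Real.norm_eq_abs]
  have hun : ∀ u ∈ Set.Ioo (-2 : ℝ) 2, IsUnit (1 + (u : ℂ) • K) := by
    intro u hu
    have h1 : ‖-((u : ℂ) • K)‖ < 1 := by
      rw [norm_neg, hsm]
      have : |u| < 2 := abs_lt.2 hu
      nlinarith [norm_nonneg K, abs_nonneg u]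
    have h2 := isUnit_one_sub_of_norm_lt_one h1
    rwa [sub_neg_eq_add] at h2
  obtain ⟨g, hg⟩ : ∃ g : ℝ → ℂ, g = fun u : ℝ => ((1 + (u : ℂ) • K)⁻¹ * K).trace := ⟨_, rfl⟩
  have hgc : ContinuousOn g (Set.Ioo (-2) 2) := by
    intro u hu
    apply ContinuousAt.continuousWithinAt
    rw [hg]
    have h1 : ContinuousAt (fun u : ℝ => (1 + (u : ℂ) • K)⁻¹) u := by
      have h2 : ContinuousAt (fun A : Matrix (Fin n) (Fin n) ℂ => A⁻¹) (1 + (u : ℂ) • K) := by
        have h3 := NormedRing.inverse_continuousAt (hun u hu).unit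
        rw [IsUnit.unit_spec] at h3
        refine h3.congr (Eventually.of_forall fun A => ?_)
        exact (Matrix.nonsing_inv_eq_ringInverse A).symm
      exact ContinuousAt.comp (f := fun u : ℝ => 1 + (u : ℂ) • K) h2 (by fun_prop)
    have h4 : Continuous fun A : Matrix (Fin n) (Fin n) ℂ => (A * K).trace := by
      unfold Matrix.trace
      simp only [Matrix.diag_apply, Matrix.mul_apply]
      fun_prop
    exact ContinuousAt.comp (f := fun u : ℝ => (1 + (u : ℂ) • K)⁻¹) h4.continuousAt h1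
  have hmem : ∀ u ∈ Set.Icc (0 : ℝ) 1, u ∈ Set.Ioo (-2 : ℝ) 2 := fun u hu =>
    ⟨by linarith [hu.1], by linarith [hu.2]⟩
  have hint : ∀ t ∈ Set.Icc (0 : ℝ) 1, IntervalIntegrable g volume 0 t := by
    intro t ht
    apply ContinuousOn.intervalIntegrable
    refine hgc.mono fun u hu => ?_
    rw [Set.uIcc_of_le ht.1] at hu
    exact hmem u ⟨hu.1, hu.2.trans ht.2⟩
  obtain ⟨L, hL⟩ : ∃ L : ℝ → ℂ, L = fun t => ∫ u in (0 : ℝ)..t, g u := ⟨_, rfl⟩
  have hLd : ∀ t ∈ Set.Icc (0 : ℝ) 1, HasDerivAt L (g t) t := by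
    intro t ht
    rw [hL]
    exact intervalIntegral.integral_hasDerivAt_right (hint t ht)
      (hgc.stronglyMeasurableAtFilter isOpen_Ioo t (hmem t ht))
      (hgc.continuousAt (isOpen_Ioo.mem_nhds (hmem t ht)))
  obtain ⟨f, hf⟩ : ∃ f : ℝ → ℂ, f = fun t : ℝ => (1 + (t : ℂ) • K).det * cexp (-L t) := ⟨_, rfl⟩
  have hfd : ∀ t ∈ Set.Icc (0 : ℝ) 1, HasDerivAt f 0 t := by
    intro t ht
    rw [hf]
    have h1 := deriv_det K t (hun t (hmem t ht))
    have h2 : HasDerivAt (fun t => cexp (-L t)) (cexp (-L t) * (-g t)) t := ((hLd t ht).neg).cexp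
    refine (h1.mul h2).congr_deriv ?_
    rw [hg]
    ring
  have hconst := constant_of_has_deriv_right_zero (f := f) (a := 0) (b := 1)
    (fun t ht => (hfd t ht).continuousAt.continuousWithinAt)
    (fun t ht => (hfd t ⟨ht.1, ht.2.le⟩).hasDerivWithinAt) 1 ⟨zero_le_one, le_rfl⟩
  have hL0 : L 0 = 0 := by rw [hL]; exact intervalIntegral.integral_same
  have hdet : (1 + K).det = cexp (L 1) := by
    rw [hf] at hconst
    simp only [hL0, Complex.ofReal_one, Complex.ofReal_zero, one_smul, zero_smul, add_zero, neg_zero,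
      Complex.exp_zero, mul_one, Matrix.det_one] at hconst
    calc (1 + K).det = ((1 + K).det * cexp (-L 1)) * cexp (L 1) := by
          rw [mul_assoc, ← Complex.exp_add, neg_add_cancel, Complex.exp_zero, mul_one]
      _ = cexp (L 1) := by rw [hconst, one_mul]
  refine ⟨L 1 - K.trace, ?_, by rw [hdet]; congr 1; ring⟩
  have hint1 := hint 1 ⟨zero_le_one, le_rfl⟩
  have e1 : L 1 - K.trace = ∫ u in (0 : ℝ)..1, (g u - K.trace) := by
    rw [intervalIntegral.integral_sub hint1 intervalIntegrable_const, hL,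
      intervalIntegral.integral_const]
    simp
  rw [e1]
  have hb : ∀ u ∈ Set.Icc (0 : ℝ) 1, ‖g u - K.trace‖ ≤ 2 * u * ‖K‖ ^ 2 := by
    intro u hu
    obtain ⟨A, hA⟩ : ∃ A, A = (1 + (u : ℂ) • K)⁻¹ := ⟨_, rfl⟩
    have h1 : A * (1 + (u : ℂ) • K) = 1 := by
      rw [hA]
      exact Matrix.nonsing_inv_mul _ ((Matrix.isUnit_iff_isUnit_det _).1 (hun u (hmem u hu)))
    have h2 : A - 1 = -((u : ℂ) • (A * K)) := by
      rw [mul_add, mul_one, Matrix.mul_smul] at h1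
      rw [← h1]
      abel
    have h3 : A * K = K + (A - 1) * K := by rw [sub_mul, one_mul]; abel
    have h4 : ‖A - 1‖ ≤ u * (‖K‖ + ‖A - 1‖ * ‖K‖) := by
      calc ‖A - 1‖ = u * ‖A * K‖ := by
            conv_lhs => rw [h2]
            rw [norm_neg, hsm', abs_of_nonneg hu.1]
        _ ≤ u * (‖K‖ + ‖A - 1‖ * ‖K‖) := by
            apply mul_le_mul_of_nonneg_left _ hu.1
            conv_lhs => rw [h3]
            exact (norm_add_le _ _).trans (add_le_add le_rfl (norm_mul_le _ _))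
    have h5 : ‖A - 1‖ ≤ 2 * u * ‖K‖ := by
      have h6 : u * ‖A - 1‖ * ‖K‖ ≤ ‖A - 1‖ * (1 / 2) := by
        have : u * ‖K‖ ≤ 1 / 2 := by nlinarith [hu.1, hu.2, norm_nonneg K]
        nlinarith [norm_nonneg (A - 1)]
      nlinarith
    have h7 : g u - K.trace = ((A - 1) * K).trace := by
      rw [hg, sub_mul, one_mul, Matrix.trace_sub, hA]
    rw [h7]
    calc ‖((A - 1) * K).trace‖ ≤ ‖A - 1‖ * ‖K‖ := trace_le _ _
      _ ≤ (2 * u * ‖K‖) * ‖K‖ := mul_le_mul_of_nonneg_right h5 (norm_nonneg _)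
      _ = _ := by ring
  have h8 := intervalIntegral.norm_integral_le_of_norm_le (f := fun u => g u - K.trace)
    (g := fun u => 2 * u * ‖K‖ ^ 2) (μ := volume) zero_le_one
    (Eventually.of_forall fun u hu => hb u ⟨hu.1.le, hu.2⟩)
    (by apply Continuous.intervalIntegrable; fun_prop)
  refine h8.trans (le_of_eq ?_)
  rw [intervalIntegral.integral_mul_const, intervalIntegral.integral_const_mul, integral_id]
  norm_num

end Pool.Agent.P8H93.FM
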